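import Mathlib

/-!
# The entries of a product of two generic matrices are not in an ideal with few generators

`entries_mem_ideal`: if all the `s ^ 2` entries of the product of two generic `s × s` matrices
lie in an ideal generated by `K` polynomials without constant term, then `s ^ 2 ≤ 4 K`.
-/

namespace Pool.Agent.H522R3.LS

open MvPolynomial

section tri

variable {ι F V : Type*} [Field F] [AddCommGroup V] [Module F V] [Fintype ι]

theorem linInd_of_tri (v : ι → V) (e : ι → V →ₗ[F] F) (ρ : ι → ℕ)
    (h1 : ∀ i, e i (v i) ≠ 0) (h2 : ∀ i j, i ≠ j → ρ i ≤ ρ j → e i (v j) = 0) :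
    LinearIndependent F v := by
  classical
  rw [Fintype.linearIndependent_iff]
  intro c hc
  by_contra hne
  push Not at hne
  obtain ⟨i₀, hi₀⟩ := hne
  obtain ⟨i, hi, hmin⟩ := Finset.exists_min_image (Finset.univ.filter fun i => c i ≠ 0) ρ
    ⟨i₀, by simpa using hi₀⟩
  have hci : c i ≠ 0 := by simpa using hi
  have := congrArg (e i) hc
  rw [map_sum, map_zero] at this
  rw [Finset.sum_eq_single i] at this
  · rw [map_smul, smul_eq_mul] at this
    rcases mul_eq_zero.mp this with h | h
    · exact hci h
    · exact h1 i h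
  · intro j _ hji
    by_cases hcj : c j = 0
    · simp [hcj]
    · rw [map_smul, h2 i j (Ne.symm hji) (hmin j (by simpa using hcj)), smul_zero]
  · simp

end tri

section flag

variable {F W : Type*} [Field F] [AddCommGroup W] [Module F W] [FiniteDimensional F W]

/-- the families of vectors whose first `k` members vanish -/
def Van (F W : Type*) [Field F] [AddCommGroup W] [Module F W] (s k : ℕ) :
    Submodule F (Fin s → W) where
  carrier := {x | ∀ j : Fin s, j.val < k → x j = 0}
  add_mem' := by
    intro a b ha hb j hj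
    simp [ha j hj, hb j hj]
  zero_mem' := by intro j _; rfl
  smul_mem' := by
    intro c a ha j hj
    simp [ha j hj]

theorem flag_step {s : ℕ} (L : Submodule F (Fin s → W)) (i : Fin s) :
    Module.finrank F (L ⊓ Van F W s i.val : Submodule F (Fin s → W)) ≤
      Module.finrank F ((L ⊓ Van F W s i.val).map (LinearMap.proj i : (Fin s → W) →ₗ[F] W)) +
      Module.finrank F (L ⊓ Van F W s (i.val + 1) : Submodule F (Fin s → W)) := by
  set P := L ⊓ Van F W s i.val
  have h := LinearMap.finrank_range_add_finrank_ker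
    ((LinearMap.proj i : (Fin s → W) →ₗ[F] W).domRestrict P)
  rw [LinearMap.range_domRestrict] at h
  rw [← h]
  refine Nat.add_le_add_left ?_ _
  rw [← Submodule.finrank_map_subtype_eq]
  apply Submodule.finrank_mono
  intro x hx
  rw [Submodule.mem_map] at hx
  obtain ⟨⟨y, hyP⟩, hy, rfl⟩ := hx
  rw [LinearMap.mem_ker, LinearMap.domRestrict_apply] at hy
  simp only [LinearMap.proj_apply] at hy
  refine ⟨hyP.1, ?_⟩
  intro j hj
  rcases Nat.lt_succ_iff_lt_or_eq.mp hj with h | h
  · exact hyP.2 j h
  · have : j = i := Fin.ext h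
    rw [this]
    exact hy

theorem flag_sum {s : ℕ} (L : Submodule F (Fin s → W)) :
    Module.finrank F L ≤ ∑ i : Fin s,
      Module.finrank F ((L ⊓ Van F W s i.val).map (LinearMap.proj i : (Fin s → W) →ₗ[F] W)) := by
  have key : ∀ k : ℕ, k ≤ s →
      Module.finrank F L ≤ (∑ i ∈ Finset.univ.filter (fun i : Fin s => i.val < k),
      Module.finrank F ((L ⊓ Van F W s i.val).map (LinearMap.proj i : (Fin s → W) →ₗ[F] W))) +
      Module.finrank F (L ⊓ Van F W s k : Submodule F (Fin s → W)) := by
    intro k
    induction k with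
    | zero =>
      intro _
      have : L ⊓ Van F W s 0 = L := by
        apply inf_eq_left.mpr
        intro x _ j hj
        exact absurd hj (Nat.not_lt_zero _)
      rw [this]
      simp
    | succ k ih =>
      intro hk
      have hk' : k < s := hk
      refine (ih hk'.le).trans ?_
      have hst := flag_step L ⟨k, hk'⟩
      have hset : Finset.univ.filter (fun i : Fin s => i.val < k + 1) =
          insert ⟨k, hk'⟩ (Finset.univ.filter (fun i : Fin s => i.val < k)) := by
        ext i
        simp only [Finset.mem_filter, Finset.mem_univ, true_and, Finset.mem_insert]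
        constructor
        · intro h
          rcases Nat.lt_succ_iff_lt_or_eq.mp h with h | h
          · exact Or.inr h
          · exact Or.inl (Fin.ext h)
        · rintro (rfl | h)
          · exact Nat.lt_succ_self _
          · omega
      rw [hset, Finset.sum_insert (by simp)]
      simp only at hst ⊢
      omega
  have h := key s le_rfl
  have h0 : L ⊓ Van F W s s = ⊥ := by
    rw [eq_bot_iff]
    intro x hx
    rw [Submodule.mem_bot]
    funext j
    exact hx.2 j j.isLt
  rw [h0, finrank_bot, add_zero] at h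
  refine h.trans (le_of_eq ?_)
  apply Finset.sum_congr _ (fun _ _ => rfl)
  ext i
  simp

end flag

theorem count_big {s K : ℕ} (d : Fin s → ℕ) (hd : ∀ i, d i ≤ s) (h : s ^ 2 ≤ (∑ i, d i) + K)
    (hK : 4 * K < s ^ 2) : s < 2 * (Finset.univ.filter fun i => s < 2 * d i).card := by
  classical
  set R := Finset.univ.filter fun i => s < 2 * d i with hR
  have h1 : ∀ i, 2 * d i ≤ s + (if i ∈ R then s else 0) := by
    intro i
    by_cases hi : i ∈ R
    · rw [if_pos hi]
      have := hd i
      omega
    · rw [if_neg hi]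
      have : ¬ s < 2 * d i := fun h => hi (by simp [hR, h])
      omega
  have h2 : 2 * ∑ i, d i ≤ s * s + R.card * s := by
    calc 2 * ∑ i, d i = ∑ i, 2 * d i := by rw [Finset.mul_sum]
      _ ≤ ∑ i : Fin s, (s + (if i ∈ R then s else 0)) := Finset.sum_le_sum fun i _ => h1 i
      _ = s * s + R.card * s := by
        rw [Finset.sum_add_distrib]
        simp [Finset.sum_ite_mem]
  by_contra hcon
  push Not at hcon
  have h3 : 2 * (R.card * s) ≤ s * s := by
    calc 2 * (R.card * s) = (2 * R.card) * s := by ring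
      _ ≤ s * s := Nat.mul_le_mul_right _ hcon
  have h4 : s ^ 2 = s * s := sq s
  omega

theorem exists_dot_ne {F : Type*} [Field F] {s : ℕ} (A B : Submodule F (Fin s → F))
    (h : s < Module.finrank F A + Module.finrank F B) :
    ∃ a ∈ A, ∃ b ∈ B, a ⬝ᵥ b ≠ 0 := by
  by_contra hcon
  push Not at hcon
  have h1 : B.map (dotProductEquiv F (Fin s)).toLinearMap ≤ A.dualAnnihilator := by
    intro f hf
    rw [Submodule.mem_map] at hf
    obtain ⟨b, hb, rfl⟩ := hf
    rw [Submodule.mem_dualAnnihilator]
    intro a ha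
    simp only [LinearEquiv.coe_coe, dotProductEquiv_apply_apply]
    rw [dotProduct_comm]
    exact hcon a ha b hb
  have h2 := Submodule.finrank_mono h1
  rw [LinearEquiv.finrank_map_eq] at h2
  have h3 := Subspace.finrank_add_finrank_dualAnnihilator_eq A
  rw [Module.finrank_fin_fun] at h3
  omega

section taylor

variable {σ F : Type*} [Field F]

/-- restriction of a polynomial to the line through `0` and `z` -/
noncomputable def ray (z : σ → F) : MvPolynomial σ F →ₐ[F] Polynomial F :=
  aeval fun i => Polynomial.C (z i) * Polynomial.X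

theorem ray_coeff_zero (z : σ → F) (p : MvPolynomial σ F) :
    (ray z p).coeff 0 = constantCoeff p := by
  induction p using MvPolynomial.induction_on with
  | C a => simp [ray]
  | add p q hp hq => rw [map_add, Polynomial.coeff_add, hp, hq, map_add]
  | mul_X p i hp =>
    rw [map_mul, Polynomial.mul_coeff_zero, map_mul, constantCoeff_X]
    simp [ray]

theorem ray_coeff_one (p : MvPolynomial σ F) :
    ∃ l : (σ → F) →ₗ[F] F, ∀ z, (ray z p).coeff 1 = l z := by
  induction p using MvPolynomial.induction_on with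
  | C a =>
    refine ⟨0, fun z => ?_⟩
    simp [ray]
  | add p q hp hq =>
    obtain ⟨l, hl⟩ := hp
    obtain ⟨l', hl'⟩ := hq
    refine ⟨l + l', fun z => ?_⟩
    rw [map_add, Polynomial.coeff_add, hl, hl', LinearMap.add_apply]
  | mul_X p i hp =>
    refine ⟨constantCoeff p • LinearMap.proj i, fun z => ?_⟩
    rw [map_mul]
    have : ray z (X i) = Polynomial.C (z i) * Polynomial.X := by simp [ray]
    rw [this, ← mul_assoc]
    rw [show (1 : ℕ) = 0 + 1 from rfl, Polynomial.coeff_mul_X, Polynomial.mul_coeff_zero,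
      ray_coeff_zero]
    simp

theorem coeff_two_mul (a b : Polynomial F) (h0 : b.coeff 0 = 0) (h1 : b.coeff 1 = 0) :
    (a * b).coeff 2 = a.coeff 0 * b.coeff 2 := by
  rw [Polynomial.coeff_mul]
  rw [show (Finset.HasAntidiagonal.antidiagonal 2 : Finset (ℕ × ℕ)) =
    {(0, 2), (1, 1), (2, 0)} from rfl]
  simp [h0, h1]

end taylor

section main

variable {F : Type*} [Field F] {s : ℕ}

/-- the variables of two generic matrices -/
abbrev V2 (s : ℕ) : Type := (Fin s × Fin s) ⊕ (Fin s × Fin s)

/-- the matrices `x` (by rows) and `y` (by columns) as a point of the affine space -/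
def pt (x y : Fin s → Fin s → F) : V2 s → F
  | .inl (i, k) => x i k
  | .inr (k, j) => y j k

/-- the part of the affine space with second matrix zero -/
def incL (F : Type*) [Field F] (s : ℕ) : (Fin s → Fin s → F) →ₗ[F] (V2 s → F) where
  toFun x := pt x 0
  map_add' := by
    intro x y
    funext v
    rcases v with ⟨i, k⟩ | ⟨k, j⟩ <;> simp [pt]
  map_smul' := by
    intro c x
    funext v
    rcases v with ⟨i, k⟩ | ⟨k, j⟩ <;> simp [pt]

/-- the part of the affine space with first matrix zero -/
def incR (F : Type*) [Field F] (s : ℕ) : (Fin s → Fin s → F) →ₗ[F] (V2 s → F) where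
  toFun y := pt 0 y
  map_add' := by
    intro x y
    funext v
    rcases v with ⟨i, k⟩ | ⟨k, j⟩ <;> simp [pt]
  map_smul' := by
    intro c x
    funext v
    rcases v with ⟨i, k⟩ | ⟨k, j⟩ <;> simp [pt]

theorem inc_add (x y : Fin s → Fin s → F) : incL F s x + incR F s y = pt x y := by
  funext v
  rcases v with ⟨i, k⟩ | ⟨k, j⟩ <;> simp [pt, incL, incR]

theorem finrank_ker_ge {ι : Type*} [Fintype ι] (l : ι → (Fin s → Fin s → F) →ₗ[F] F) :
    s ^ 2 ≤ Module.finrank F (LinearMap.ker (LinearMap.pi l)) + Fintype.card ι := by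
  have h := LinearMap.finrank_range_add_finrank_ker (LinearMap.pi l)
  have h1 : Module.finrank F (LinearMap.range (LinearMap.pi l)) ≤ Fintype.card ι := by
    refine (Submodule.finrank_le _).trans ?_
    rw [Module.finrank_fintype_fun_eq_card]
  have h2 : Module.finrank F (Fin s → Fin s → F) = s ^ 2 := by
    rw [Module.finrank_pi_fintype]
    simp [sq]
  omega

/-- the polynomials `∑ k, X i k * Y k j` -/
noncomputable def entry (F : Type*) [Field F] (s : ℕ) (i j : Fin s) : MvPolynomial (V2 s) F :=
  ∑ k, X (Sum.inl (i, k)) * X (Sum.inr (k, j))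

theorem ray_entry (x y : Fin s → Fin s → F) (i j : Fin s) :
    (ray (pt x y) (entry F s i j)).coeff 2 = x i ⬝ᵥ y j := by
  unfold entry
  rw [map_sum, Polynomial.finsetSum_coeff, dotProduct]
  apply Finset.sum_congr rfl
  intro k _
  rw [map_mul]
  have h1 : ray (pt x y) (X (Sum.inl (i, k))) = Polynomial.C (x i k) * Polynomial.X := by
    simp [ray, pt]
  have h2 : ray (pt x y) (X (Sum.inr (k, j))) = Polynomial.C (y j k) * Polynomial.X := by
    simp [ray, pt]
  rw [h1, h2]
  have h3 : Polynomial.C (x i k) * Polynomial.X * (Polynomial.C (y j k) * Polynomial.X) =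
      Polynomial.C (x i k * y j k) * Polynomial.X ^ 2 := by
    rw [Polynomial.C_mul]; ring
  rw [h3, Polynomial.coeff_C_mul, Polynomial.coeff_X_pow]
  simp

theorem entries_mem_ideal {ι : Type*} [Fintype ι] (g : ι → MvPolynomial (V2 s) F)
    (hg : ∀ l, constantCoeff (g l) = 0)
    (hmem : ∀ i j, entry F s i j ∈ Ideal.span (Set.range g)) :
    s ^ 2 ≤ 4 * Fintype.card ι := by
  classical
  by_contra hcon
  push Not at hcon
  choose h hh using fun i j => Ideal.mem_span_range_iff_exists_fun.mp (hmem i j)
  choose lam hlam using fun l => ray_coeff_one (g l)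
  -- the span of the constant terms of the coefficients
  let H : ι → (Fin s → Fin s → F) := fun l i j => constantCoeff (h i j l)
  let W : Submodule F (Fin s → Fin s → F) := Submodule.span F (Set.range H)
  have hW : Module.finrank F W ≤ Fintype.card ι := finrank_range_le_card H
  let Lx := LinearMap.ker (LinearMap.pi fun l => (lam l).comp (incL F s))
  let Ly := LinearMap.ker (LinearMap.pi fun l => (lam l).comp (incR F s))
  have hprod : ∀ x ∈ Lx, ∀ y ∈ Ly, (fun i j => x i ⬝ᵥ y j) ∈ W := by
    intro x hx y hy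
    have hz : ∀ l, (ray (pt x y) (g l)).coeff 1 = 0 := by
      intro l
      rw [hlam, ← inc_add, map_add]
      have h1 := congrFun (LinearMap.mem_ker.mp hx) l
      have h2 := congrFun (LinearMap.mem_ker.mp hy) l
      simp only [LinearMap.pi_apply, LinearMap.comp_apply, Pi.zero_apply] at h1 h2
      rw [h1, h2, add_zero]
    have heq : (fun i j => x i ⬝ᵥ y j) =
        ∑ l, (ray (pt x y) (g l)).coeff 2 • H l := by
      funext i j
      rw [← ray_entry, ← hh i j, map_sum, Polynomial.finsetSum_coeff]
      simp only [Finset.sum_apply, Pi.smul_apply, smul_eq_mul]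
      apply Finset.sum_congr rfl
      intro l _
      rw [map_mul, coeff_two_mul _ _ (by rw [ray_coeff_zero, hg]) (hz l), ray_coeff_zero,
        mul_comm]
    rw [heq]
    exact Submodule.sum_mem _ fun l _ =>
      Submodule.smul_mem _ _ (Submodule.subset_span ⟨l, rfl⟩)
  -- the flags
  let dx : Fin s → ℕ := fun i =>
    Module.finrank F ((Lx ⊓ Van F (Fin s → F) s i.val).map
      (LinearMap.proj i : (Fin s → Fin s → F) →ₗ[F] (Fin s → F)))
  let dy : Fin s → ℕ := fun i =>
    Module.finrank F ((Ly ⊓ Van F (Fin s → F) s i.val).map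
      (LinearMap.proj i : (Fin s → Fin s → F) →ₗ[F] (Fin s → F)))
  have hdx : ∀ i, dx i ≤ s := fun i => by
    refine (Submodule.finrank_le _).trans ?_
    rw [Module.finrank_fin_fun]
  have hdy : ∀ i, dy i ≤ s := fun i => by
    refine (Submodule.finrank_le _).trans ?_
    rw [Module.finrank_fin_fun]
  have hsx : s ^ 2 ≤ (∑ i, dx i) + Fintype.card ι :=
    (finrank_ker_ge _).trans (Nat.add_le_add_right (flag_sum Lx) _)
  have hsy : s ^ 2 ≤ (∑ i, dy i) + Fintype.card ι :=
    (finrank_ker_ge _).trans (Nat.add_le_add_right (flag_sum Ly) _)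
  have hRx := count_big dx hdx hsx hcon
  have hRy := count_big dy hdy hsy hcon
  set Rx := Finset.univ.filter fun i => s < 2 * dx i with hRxd
  set Ry := Finset.univ.filter fun i => s < 2 * dy i with hRyd
  -- the witnesses
  have hwit : ∀ p : Rx × Ry, ∃ A ∈ W, A p.1.1 p.2.1 ≠ 0 ∧
      ∀ i j : Fin s, (i < p.1.1 ∨ j < p.2.1) → A i j = 0 := by
    rintro ⟨⟨i, hi⟩, ⟨j, hj⟩⟩
    have hi' : s < 2 * dx i := by simpa [hRxd] using hi
    have hj' : s < 2 * dy j := by simpa [hRyd] using hj
    obtain ⟨a, ha, b, hb, hab⟩ := exists_dot_ne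
      ((Lx ⊓ Van F (Fin s → F) s i.val).map
        (LinearMap.proj i : (Fin s → Fin s → F) →ₗ[F] (Fin s → F)))
      ((Ly ⊓ Van F (Fin s → F) s j.val).map
        (LinearMap.proj j : (Fin s → Fin s → F) →ₗ[F] (Fin s → F)))
      (show s < dx i + dy j by omega)
    obtain ⟨x, hx, rfl⟩ := Submodule.mem_map.mp ha
    obtain ⟨y, hy, rfl⟩ := Submodule.mem_map.mp hb
    refine ⟨fun i j => x i ⬝ᵥ y j, hprod x hx.1 y hy.1, hab, ?_⟩
    rintro i' j' (h' | h')
    · show x i' ⬝ᵥ y j' = 0
      rw [hx.2 i' h', zero_dotProduct]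
    · show x i' ⬝ᵥ y j' = 0
      rw [hy.2 j' h', dotProduct_zero]
  choose A hAW hA1 hA2 using hwit
  have hind : LinearIndependent F A := by
    apply linInd_of_tri A
      (fun p => (LinearMap.proj p.2.1 : (Fin s → F) →ₗ[F] F).comp
        (LinearMap.proj p.1.1 : (Fin s → Fin s → F) →ₗ[F] (Fin s → F)))
      (fun p => p.1.1.val + p.2.1.val)
    · intro p
      exact hA1 p
    · intro p q hpq hle
      show A q p.1.1 p.2.1 = 0
      apply hA2
      by_contra hno
      push Not at hno
      obtain ⟨h1, h2⟩ := hno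
      apply hpq
      have e1 : q.1.1.val ≤ p.1.1.val := h1
      have e2 : q.2.1.val ≤ p.2.1.val := h2
      refine Prod.ext (Subtype.ext (Fin.ext ?_)) (Subtype.ext (Fin.ext ?_)) <;> omega
  have hcard : Rx.card * Ry.card ≤ Module.finrank F W := by
    have h1 := finrank_span_eq_card hind
    rw [Fintype.card_prod, Fintype.card_coe, Fintype.card_coe] at h1
    rw [← h1]
    apply Submodule.finrank_mono
    rw [Submodule.span_le]
    rintro _ ⟨p, rfl⟩
    exact hAW p
  have h5 : s * s ≤ (2 * Rx.card) * (2 * Ry.card) := Nat.mul_le_mul hRx.le hRy.le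
  have h6 : (2 * Rx.card) * (2 * Ry.card) = 4 * (Rx.card * Ry.card) := by ring
  have h7 : s ^ 2 = s * s := sq s
  omega

end main

end Pool.Agent.H522R3.LS
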