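import Pool.Agent.H522R3.LS.Upper

/-!
# Symmetry under a small group is cheap
-/

namespace Pool.Agent.H522R3.LS

open MvPolynomial

section average

variable {r s : ℕ} {Z F G : Type} [Field F] [Fintype G] [Fintype Z]

omit [Fintype Z] in
theorem sw_invol (x : Fin r → ZMod 2) (p : Ix r s Z) : sw x (sw x p) = p := by
  rw [sw_sw, add_self_fun, sw_zero]

/-- the exchange as a permutation -/
def swP (x : Fin r → ZMod 2) : Equiv.Perm (Ix r s Z) where
  toFun := sw x
  invFun := sw x
  left_inv := sw_invol x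
  right_inv := sw_invol x

omit [Fintype G] in
theorem rename_prodEntry (x : Fin r → ZMod 2) (p q : Ix r s Z) :
    rename (swV x) (prodEntry F (sw x p) (sw x q)) = prodEntry F p q := by
  unfold prodEntry
  rw [map_sum, ← Equiv.sum_comp (swP x)]
  apply Finset.sum_congr rfl
  intro k _
  rw [map_mul, rename_X, rename_X]
  simp only [both, sw_invol]
  show X (Sum.inl (p, sw x (sw x k))) * X (Sum.inr (sw x (sw x k), q)) = _
  rw [sw_invol]

/-- the nodes of the averaged circuit -/
abbrev Av (r s : ℕ) (Z G : Type) (Γ : AddSubgroup (Fin r → ZMod 2)) : Type :=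
  (Γ × G) ⊕ ((Ix r s Z × Ix r s Z) ⊕ ((Ix r s Z × Ix r s Z) ⊕ Unit))

/-- the averaged circuit -/
noncomputable def avC (Γ : AddSubgroup (Fin r → ZMod 2)) [Fintype Γ]
    (C : Circ (Vr r s Z) F G) (out : Ix r s Z → Ix r s Z → G) :
    Circ (Vr r s Z) F (Av r s Z G Γ) where
  lab := fun y => match y with
    | .inl (x, g) => (C.lab g).relabel (swV x.1)
    | .inr (.inl _) => .add
    | .inr (.inr (.inl _)) => .mul
    | .inr (.inr (.inr _)) => .const ((Fintype.card Γ : F)⁻¹)
  args := fun y => match y with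
    | .inl (x, g) => (C.args g).map fun h => Sum.inl (x, h)
    | .inr (.inl (p, q)) => (Finset.univ : Finset Γ).val.map fun x =>
        Sum.inl (x, out (sw x.1 p) (sw x.1 q))
    | .inr (.inr (.inl (p, q))) => {Sum.inr (.inl (p, q)), Sum.inr (.inr (.inr ()))}
    | .inr (.inr (.inr _)) => 0
  num := fun y => match y with
    | .inl (_, g) => C.num g
    | .inr (.inl _) => Finset.univ.sup C.num + 1
    | .inr (.inr (.inl _)) => Finset.univ.sup C.num + 2
    | .inr (.inr (.inr _)) => 0
  num_lt := by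
    rintro (⟨x, g⟩ | ⟨p, q⟩ | ⟨p, q⟩ | u) h hh
    · simp only [Multiset.mem_map] at hh
      obtain ⟨h', hh', rfl⟩ := hh
      exact C.num_lt g h' hh'
    · simp only [Multiset.mem_map] at hh
      obtain ⟨x, _, rfl⟩ := hh
      exact Nat.lt_succ_of_le (Finset.le_sup (f := C.num) (Finset.mem_univ _))
    · simp only [Multiset.insert_eq_cons, Multiset.mem_cons, Multiset.mem_singleton] at hh
      rcases hh with rfl | rfl
      · exact Nat.lt_succ_self _
      · exact Nat.succ_pos _
    · simp at hh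

/-- the values of the averaged circuit -/
noncomputable def avV (Γ : AddSubgroup (Fin r → ZMod 2)) [Fintype Γ]
    (val : G → MvPolynomial (Vr r s Z) F) : Av r s Z G Γ → MvPolynomial (Vr r s Z) F
  | .inl (x, g) => rename (swV x.1) (val g)
  | .inr (.inl (p, q)) => MvPolynomial.C (Fintype.card Γ : F) * prodEntry F p q
  | .inr (.inr (.inl (p, q))) => prodEntry F p q
  | .inr (.inr (.inr _)) => MvPolynomial.C ((Fintype.card Γ : F)⁻¹)

theorem avC_val (Γ : AddSubgroup (Fin r → ZMod 2)) [Fintype Γ]
    (hΓ : (Fintype.card Γ : F) ≠ 0) {C : Circ (Vr r s Z) F G}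
    {val : G → MvPolynomial (Vr r s Z) F} {out : Ix r s Z → Ix r s Z → G}
    (h : Computes C val out) : IsVal (avC Γ C out) (avV Γ val) := by
  rintro (⟨x, g⟩ | ⟨p, q⟩ | ⟨p, q⟩ | u)
  · show rename (swV x.1) (val g) = _
    rw [h.1 g]
    simp only [avC]
    cases C.lab g with
    | var i => simp [Lab.relabel]
    | const c => simp [Lab.relabel]
    | add =>
      simp only [Lab.relabel]
      rw [map_multiset_sum, Multiset.map_map, Multiset.map_map]
      rfl
    | mul =>
      simp only [Lab.relabel]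
      rw [map_multiset_prod, Multiset.map_map, Multiset.map_map]
      rfl
  · show MvPolynomial.C (Fintype.card Γ : F) * prodEntry F p q = _
    simp only [avC]
    rw [Multiset.map_map]
    show _ = ∑ x : Γ, rename (swV x.1) (val (out (sw x.1 p) (sw x.1 q)))
    have h1 : ∀ x : Γ, rename (swV x.1) (val (out (sw x.1 p) (sw x.1 q))) =
        prodEntry F p q := by
      intro x
      rw [h.2, rename_prodEntry]
    rw [Finset.sum_congr rfl fun x _ => h1 x, Finset.sum_const, Finset.card_univ,
      nsmul_eq_mul]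
    simp
  · show prodEntry F p q = _
    simp only [avC]
    simp only [Multiset.insert_eq_cons, Multiset.map_cons, Multiset.map_singleton,
      Multiset.prod_cons, Multiset.prod_singleton, avV]
    have h1 : (MvPolynomial.C (Fintype.card Γ : F) : MvPolynomial (Vr r s Z) F) *
        MvPolynomial.C ((Fintype.card Γ : F)⁻¹) = 1 := by
      rw [← MvPolynomial.C_mul, mul_inv_cancel₀ hΓ, MvPolynomial.C_1]
    calc prodEntry F p q = (MvPolynomial.C (Fintype.card Γ : F) *
          MvPolynomial.C ((Fintype.card Γ : F)⁻¹)) * prodEntry F p q := by rw [h1, one_mul]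
      _ = _ := by ring
  · rfl

theorem gates_avC (Γ : AddSubgroup (Fin r → ZMod 2)) [Fintype Γ] (C : Circ (Vr r s Z) F G)
    (out : Ix r s Z → Ix r s Z → G) :
    gates (avC Γ C out) = Fintype.card Γ * gates C + 2 * Fintype.card (Ix r s Z) ^ 2 := by
  classical
  unfold gates
  have hset : (Finset.univ.filter fun g : Av r s Z G Γ =>
      (avC Γ C out).lab g = .add ∨ (avC Γ C out).lab g = .mul) =
      ((Finset.univ : Finset Γ) ×ˢ
        (Finset.univ.filter fun g => C.lab g = .add ∨ C.lab g = .mul)).disjSum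
      ((Finset.univ : Finset (Ix r s Z × Ix r s Z)).disjSum
        ((Finset.univ : Finset (Ix r s Z × Ix r s Z)).disjSum ∅)) := by
    ext x
    rcases x with ⟨β, g⟩ | ⟨p, q⟩ | ⟨p, q⟩ | u
    · simp only [avC, Finset.mem_filter, Finset.mem_univ, true_and, Finset.inl_mem_disjSum,
        Finset.mem_product]
      cases C.lab g <;> simp [Lab.relabel]
    · simp [avC]
    · simp [avC]
    · simp [avC]
  rw [hset, Finset.card_disjSum, Finset.card_product, Finset.card_disjSum,
    Finset.card_disjSum, Finset.card_empty, Finset.card_univ, Finset.card_univ,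
    Fintype.card_prod]
  ring

/-- the automorphism of the averaged circuit -/
def avP (Γ : AddSubgroup (Fin r → ZMod 2)) (G : Type) (z : Γ) :
    Equiv.Perm (Av r s Z G Γ) :=
  Equiv.sumCongr (Equiv.prodCongr (Equiv.addRight z) (Equiv.refl G))
    (Equiv.sumCongr (Equiv.prodCongr (swP z.1) (swP z.1))
      (Equiv.sumCongr (Equiv.prodCongr (swP z.1) (swP z.1)) (Equiv.refl Unit)))

omit [Fintype Z] in
theorem avC_symm (Γ : AddSubgroup (Fin r → ZMod 2)) [Fintype Γ] (C : Circ (Vr r s Z) F G)
    (out : Ix r s Z → Ix r s Z → G) (z : Fin r → ZMod 2) (hz : z ∈ Γ) :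
    Symm (avC Γ C out) (fun p q => Sum.inr (.inr (.inl (p, q)))) (sw z) := by
  refine ⟨avP Γ G ⟨z, hz⟩, ?_, fun p q => rfl⟩
  rintro (⟨x, g⟩ | ⟨p, q⟩ | ⟨p, q⟩ | u)
  · constructor
    · show (C.lab g).relabel (swV (x.1 + z)) = ((C.lab g).relabel (swV x.1)).relabel (swV z)
      rw [relabel_relabel, swV_comp]
    · show ((C.args g).map fun h => Sum.inl ((x + ⟨z, hz⟩ : Γ), h)) =
        ((C.args g).map fun h => Sum.inl (x, h)).map (avP Γ G ⟨z, hz⟩)
      rw [Multiset.map_map]
      rfl
  · constructor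
    · rfl
    · show ((Finset.univ : Finset Γ).val.map fun x : Γ =>
          (Sum.inl (x, out (sw x.1 (sw z p)) (sw x.1 (sw z q))) : Av r s Z G Γ)) =
        ((Finset.univ : Finset Γ).val.map fun x : Γ =>
          (Sum.inl (x, out (sw x.1 p) (sw x.1 q)) : Av r s Z G Γ)).map (avP Γ G ⟨z, hz⟩)
      rw [Multiset.map_map]
      have h1 : (Finset.univ : Finset Γ).val.map (Equiv.addRight (⟨z, hz⟩ : Γ)) =
          (Finset.univ : Finset Γ).val := by
        have h2 := congrArg Finset.val (Finset.map_univ_equiv (Equiv.addRight (⟨z, hz⟩ : Γ)))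
        rwa [Finset.map_val] at h2
      conv_lhs => rw [← h1]
      rw [Multiset.map_map]
      apply Multiset.map_congr rfl
      intro x _
      show (Sum.inl (x + ⟨z, hz⟩, out (sw (x.1 + z) (sw z p)) (sw (x.1 + z) (sw z q))) :
        Av r s Z G Γ) = Sum.inl (x + ⟨z, hz⟩, out (sw x.1 p) (sw x.1 q))
      have h3 : ∀ p : Ix r s Z, sw (x.1 + z) (sw z p) = sw x.1 p := by
        intro p
        rw [sw_sw]
        congr 1
        rw [add_comm, add_assoc, add_self_fun, add_zero]
      rw [h3, h3]
  · constructor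
    · rfl
    · rfl
  · constructor
    · rfl
    · rfl

theorem card_group_ne_zero (h2 : (2 : F) ≠ 0) (Γ : AddSubgroup (Fin r → ZMod 2))
    [Fintype Γ] : (Fintype.card Γ : F) ≠ 0 := by
  have h1 : Nat.card Γ ∣ Nat.card (Fin r → ZMod 2) := AddSubgroup.card_addSubgroup_dvd_card Γ
  have h3 : Nat.card (Fin r → ZMod 2) = 2 ^ r := by
    rw [Nat.card_eq_fintype_card]
    simp [ZMod.card]
  rw [h3] at h1
  obtain ⟨j, _, hj⟩ := (Nat.dvd_prime_pow Nat.prime_two).mp h1
  rw [Nat.card_eq_fintype_card] at hj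
  rw [hj]
  push_cast
  exact pow_ne_zero _ h2

end average

end Pool.Agent.H522R3.LS
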