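import Pool.Agent.H522R3.LS.Alg

/-!
# Circuits with symmetries: one triple of pairs of blocks
-/

namespace Pool.Agent.H522R3.LS

open MvPolynomial

/-- The label of a node of a circuit over `F` with variables `V`: a variable, a constant, or
one of the two operations. -/
inductive Lab (V F : Type) where
  | var (i : V)
  | const (c : F)
  | add
  | mul

/-- Relabelling the variables along a map `f`. -/
def Lab.relabel {V V' F : Type} (f : V → V') : Lab V F → Lab V' F
  | .var i => .var (f i)
  | .const c => .const c
  | .add => .add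
  | .mul => .mul

/-- An arithmetic circuit over `F` in the variables `V` with node set `G`.  The gates (nodes
labelled with an operation) have arbitrary finite multisets of arguments; the numbering `num`
of the nodes makes the graph acyclic. -/
structure Circ (V F G : Type) where
  lab : G → Lab V F
  args : G → Multiset G
  num : G → ℕ
  num_lt : ∀ g, ∀ h ∈ args g, num h < num g

/-- `val` gives the polynomials computed at the nodes. -/
def IsVal {V F G : Type} [Field F] (C : Circ V F G) (val : G → MvPolynomial V F) : Prop :=
  ∀ g, val g = match C.lab g with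
    | .var i => MvPolynomial.X i
    | .const c => MvPolynomial.C c
    | .add => ((C.args g).map val).sum
    | .mul => ((C.args g).map val).prod

/-- The permutation `p` of the nodes is an automorphism of the circuit that extends the
map `f` of the variables: it relabels the variables by `f`, keeps all other labels and
maps the arguments of each node to the arguments of its image. -/
def IsAut {V F G : Type} (C : Circ V F G) (f : V → V) (p : Equiv.Perm G) : Prop :=
  ∀ g, C.lab (p g) = (C.lab g).relabel f ∧ C.args (p g) = (C.args g).map p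

variable {V F G : Type}

theorem relabel_relabel (f f' : V → V) (l : Lab V F) :
    (l.relabel f).relabel f' = l.relabel (f' ∘ f) := by
  cases l <;> rfl

theorem isAut_mul {C : Circ V F G} {f f' : V → V} {p p' : Equiv.Perm G} (hp : IsAut C f p)
    (hp' : IsAut C f' p') : IsAut C (f' ∘ f) (p' * p) := by
  intro g
  constructor
  · rw [Equiv.Perm.mul_apply, (hp' _).1, (hp g).1, relabel_relabel]
  · rw [Equiv.Perm.mul_apply, (hp' _).2, (hp g).2, Multiset.map_map]
    rfl

theorem isAut_inv {C : Circ V F G} {f f' : V → V} (hff : f' ∘ f = id) {p : Equiv.Perm G}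
    (hp : IsAut C f p) : IsAut C f' p⁻¹ := by
  intro g
  have h := hp (p⁻¹ g)
  rw [show p (p⁻¹ g) = g from p.apply_symm_apply g] at h
  constructor
  · rw [h.1, relabel_relabel, hff]
    cases C.lab (p⁻¹ g) <;> rfl
  · rw [h.2, Multiset.map_map]
    have : (⇑p⁻¹ ∘ ⇑p) = id := by
      funext x
      simp
    rw [this, Multiset.map_id]

variable [Field F]

theorem val_aut {C : Circ V F G} {val : G → MvPolynomial V F} (hval : IsVal C val) {f : V → V}
    {p : Equiv.Perm G} (hp : IsAut C f p) (g : G) : val (p g) = rename f (val g) := by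
  suffices h : ∀ n, ∀ g, C.num g < n → val (p g) = rename f (val g) from
    h (C.num g + 1) g (Nat.lt_succ_self _)
  intro n
  induction n with
  | zero => intro g hg; exact absurd hg (Nat.not_lt_zero _)
  | succ n ih =>
    intro g hg
    have hargs : ∀ h ∈ C.args g, val (p h) = rename f (val h) := fun h hh =>
      ih h (lt_of_lt_of_le (C.num_lt g h hh) (Nat.lt_succ_iff.mp hg))
    rw [hval (p g), hval g, (hp g).1, (hp g).2]
    cases C.lab g with
    | var i => simp [Lab.relabel]
    | const c => simp [Lab.relabel]
    | add =>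
      simp only [Lab.relabel]
      rw [map_multiset_sum, Multiset.map_map, Multiset.map_map]
      congr 1
      exact Multiset.map_congr rfl fun h hh => hargs h hh
    | mul =>
      simp only [Lab.relabel]
      rw [map_multiset_prod, Multiset.map_map, Multiset.map_map]
      congr 1
      exact Multiset.map_congr rfl fun h hh => hargs h hh

/-! ### The index set -/

/-- The index set of the rows and columns: `r` pairs of blocks of size `s`, and a rest. -/
abbrev Ix (r s : ℕ) (Z : Type) : Type := (Fin r × ZMod 2 × Fin s) ⊕ Z

/-- The permutation of the index set that exchanges the two blocks of the pairs `v` with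
`x v = 1`. -/
def sw {r s : ℕ} {Z : Type} (x : Fin r → ZMod 2) : Ix r s Z → Ix r s Z
  | .inl (v, a, i) => .inl (v, a + x v, i)
  | .inr z => .inr z

/-- The variables of the two matrices. -/
abbrev Vr (r s : ℕ) (Z : Type) : Type := (Ix r s Z × Ix r s Z) ⊕ (Ix r s Z × Ix r s Z)

/-- The map of the variables of two matrices indexed by `M × M` given by a simultaneous
permutation `f` of the rows and columns of both matrices. -/
def both {M : Type} (f : M → M) : (M × M) ⊕ (M × M) → (M × M) ⊕ (M × M)
  | .inl (p, q) => .inl (f p, f q)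
  | .inr (p, q) => .inr (f p, f q)

/-- The map of the variables given by the exchanges `sw x`. -/
abbrev swV {r s : ℕ} {Z : Type} (x : Fin r → ZMod 2) : Vr r s Z → Vr r s Z := both (sw x)

variable {r s : ℕ} {Z : Type}

theorem sw_sw (x y : Fin r → ZMod 2) (p : Ix r s Z) : sw y (sw x p) = sw (x + y) p := by
  rcases p with ⟨v, a, i⟩ | z
  · simp [sw, add_assoc]
  · rfl

theorem swV_comp (x y : Fin r → ZMod 2) :
    (swV y ∘ swV x : Vr r s Z → Vr r s Z) = swV (x + y) := by
  funext v
  rcases v with ⟨p, q⟩ | ⟨p, q⟩ <;> simp [both, sw_sw]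

theorem sw_zero (p : Ix r s Z) : sw 0 p = p := by
  rcases p with ⟨v, a, i⟩ | z <;> simp [sw]

theorem swV_zero : (swV 0 : Vr r s Z → Vr r s Z) = id := by
  funext v
  rcases v with ⟨p, q⟩ | ⟨p, q⟩ <;> simp [both, sw_zero]

theorem add_self_fun (x : Fin r → ZMod 2) : x + x = 0 := by
  funext i
  exact CharTwo.add_self_eq_zero (x i)

omit [Field F] in
theorem isAut_symm {C : Circ (Vr r s Z) F G} {x : Fin r → ZMod 2} {p : Equiv.Perm G}
    (hp : IsAut C (swV x) p) : IsAut C (swV x) p⁻¹ :=
  isAut_inv (by rw [swV_comp, add_self_fun, swV_zero]) hp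

/-! ### The substitution -/

/-- the substitution of a generic `s × s` matrix and of another one, shifted by `a` and `b`,
for the blocks -/
noncomputable def sub (F : Type) [Field F] (r s : ℕ) (Z : Type) (u v w : Fin r)
    (a b : ZMod 2) : Vr r s Z → MvPolynomial (V2 s) F
  | .inl (.inl (u', α, i), .inl (v', β, k)) =>
      if u' = u ∧ v' = v ∧ β = α + a then X (Sum.inl (i, k)) else 0
  | .inr (.inl (v', β, k), .inl (w', γ, j)) =>
      if v' = v ∧ w' = w ∧ γ = β + b then X (Sum.inr (k, j)) else 0
  | _ => 0

/-- the resulting homomorphism -/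
noncomputable def phi (F : Type) [Field F] (r s : ℕ) (Z : Type) (u v w : Fin r)
    (a b : ZMod 2) : MvPolynomial (Vr r s Z) F →ₐ[F] MvPolynomial (V2 s) F :=
  aeval (sub F r s Z u v w a b)

theorem z2_shift (α β a c d : ZMod 2) : (β + d = α + c + a ↔ β = α + (a + c + d)) := by
  revert α β a c d; decide

theorem phi_rename (u v w : Fin r) (a b : ZMod 2) (x : Fin r → ZMod 2)
    (p : MvPolynomial (Vr r s Z) F) :
    phi F r s Z u v w a b (rename (swV x) p) =
      phi F r s Z u v w (a + x u + x v) (b + x v + x w) p := by
  unfold phi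
  rw [aeval_rename]
  congr 2
  funext y
  rcases y with ⟨⟨u', α, i⟩ | z, ⟨v', β, k⟩ | z'⟩ | ⟨⟨v', β, k⟩ | z, ⟨w', γ, j⟩ | z'⟩ <;>
    simp only [both, sw, sub, Function.comp]
  · by_cases h1 : u' = u
    · by_cases h2 : v' = v
      · subst h1 h2
        simp only [true_and, z2_shift]
      · simp [h2]
    · simp [h1]
  · by_cases h1 : v' = v
    · by_cases h2 : w' = w
      · subst h1 h2
        simp only [true_and, z2_shift]
      · simp [h2]
    · simp [h1]

theorem const_sub (u v w : Fin r) (a b : ZMod 2) (y : Vr r s Z) :
    constantCoeff (sub F r s Z u v w a b y) = 0 := by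
  rcases y with ⟨⟨u', α, i⟩ | z, ⟨v', β, k⟩ | z'⟩ | ⟨⟨v', β, k⟩ | z, ⟨w', γ, j⟩ | z'⟩ <;>
    simp only [sub] <;> try split_ifs
  all_goals simp

theorem const_phi (u v w : Fin r) (a b : ZMod 2) (p : MvPolynomial (Vr r s Z) F) :
    constantCoeff (phi F r s Z u v w a b p) = constantCoeff p := by
  induction p using MvPolynomial.induction_on with
  | C c => simp [phi]
  | add p q hp hq => rw [map_add, map_add, hp, hq, map_add]
  | mul_X p i hp =>
    rw [map_mul, map_mul, map_mul, constantCoeff_X]
    have : phi F r s Z u v w a b (X i) = sub F r s Z u v w a b i := by simp [phi]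
    rw [this, const_sub, mul_zero, mul_zero]

/-- The entry `(p, q)` of the product of two generic matrices indexed by `M × M`. -/
noncomputable def prodEntry (F : Type) [Field F] {M : Type} [Fintype M] (p q : M) :
    MvPolynomial ((M × M) ⊕ (M × M)) F :=
  ∑ k, X (Sum.inl (p, k)) * X (Sum.inr (k, q))

theorem phi_prodEntry [Fintype Z] (u v w : Fin r) (a b α γ : ZMod 2) (i j : Fin s) :
    phi F r s Z u v w a b (prodEntry F (.inl (u, α, i)) (.inl (w, γ, j))) =
      if γ = α + a + b then entry F s i j else 0 := by
  unfold prodEntry entry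
  rw [map_sum, Fintype.sum_sum_type]
  have h0 : ∀ z : Z, phi F r s Z u v w a b (X (Sum.inl (Sum.inl (u, α, i), Sum.inr z)) *
      X (Sum.inr (Sum.inr z, Sum.inl (w, γ, j)))) = 0 := by
    intro z
    simp [phi, sub]
  rw [Finset.sum_eq_zero (fun z _ => h0 z), add_zero, Fintype.sum_prod_type]
  rw [Finset.sum_eq_single v]
  · rw [Fintype.sum_prod_type, Finset.sum_eq_single (α + a)]
    · by_cases h : γ = α + a + b
      · rw [if_pos h]
        apply Finset.sum_congr rfl
        intro k _
        simp [phi, sub, h]
      · rw [if_neg h]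
        apply Finset.sum_eq_zero
        intro k _
        simp [phi, sub, h]
    · intro β _ hβ
      apply Finset.sum_eq_zero
      intro k _
      simp [phi, sub, hβ]
    · simp
  · intro v' _ hv'
    apply Finset.sum_eq_zero
    intro x _
    simp [phi, sub, hv']
  · simp

/-! ### The gates that see a triple -/

section sees

variable (C : Circ (Vr r s Z) F G) (val : G → MvPolynomial (Vr r s Z) F)

/-- `g` is fixed by an automorphism that exchanges the blocks given by `x`. -/
def Fixes (x : Fin r → ZMod 2) (g : G) : Prop :=
  ∃ p : Equiv.Perm G, IsAut C (swV x) p ∧ p g = g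

/-- the gate `g` sees the triple `(u, v, w)` -/
def Sees (u v w : Fin r) (g : G) : Prop :=
  ¬ (∀ b, phi F r s Z u v w 0 b (val g) = phi F r s Z u v w 1 b (val g)) ∧
  ¬ (∀ a, phi F r s Z u v w a 0 (val g) = phi F r s Z u v w a 1 (val g)) ∧
  ¬ (∃ x : Fin r → ZMod 2, x u = 0 ∧ x v = 1 ∧ x w = 0 ∧ Fixes C x g)

variable {C val}

theorem fixes_phi (hval : IsVal C val) {x : Fin r → ZMod 2} {g : G} (h : Fixes C x g)
    (u v w : Fin r) (a b : ZMod 2) :
    phi F r s Z u v w (a + x u + x v) (b + x v + x w) (val g) =
      phi F r s Z u v w a b (val g) := by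
  obtain ⟨p, hp, hpg⟩ := h
  rw [← phi_rename, ← val_aut hval hp, hpg]

theorem z2_cases (a : ZMod 2) : a = 0 ∨ a = 1 := by revert a; decide

/-- A gate that sees a triple is fixed by no automorphism that exchanges exactly one of the
three pairs. -/
theorem sees_not_fixes (hval : IsVal C val) {u v w : Fin r} {g : G} (h : Sees C val u v w g)
    {x : Fin r → ZMod 2} (hx : Fixes C x g) :
    ¬ (x u = 1 ∧ x v = 0 ∧ x w = 0) ∧ ¬ (x u = 0 ∧ x v = 1 ∧ x w = 0) ∧
      ¬ (x u = 0 ∧ x v = 0 ∧ x w = 1) := by
  refine ⟨?_, ?_, ?_⟩
  · rintro ⟨h1, h2, h3⟩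
    apply h.1
    intro b
    have := fixes_phi hval hx u v w 0 b
    rw [h1, h2, h3] at this
    simpa using this.symm
  · rintro ⟨h1, h2, h3⟩
    exact h.2.2 ⟨x, h1, h2, h3, hx⟩
  · rintro ⟨h1, h2, h3⟩
    apply h.2.1
    intro a
    have := fixes_phi hval hx u v w a 0
    rw [h1, h2, h3] at this
    simpa using this.symm

/-- nodes labelled by variables and constants see nothing -/
theorem sees_op (hval : IsVal C val) {u v w : Fin r} {g : G} (h : Sees C val u v w g) :
    C.lab g = .add ∨ C.lab g = .mul := by
  have hv := hval g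
  cases hl : C.lab g with
  | var i =>
    exfalso
    rw [hl] at hv
    simp only at hv
    rcases i with ⟨p, q⟩ | ⟨p, q⟩
    · apply h.2.1
      intro a
      rw [hv]
      simp only [phi, aeval_X]
      rcases p with ⟨u', α, i⟩ | z <;> rcases q with ⟨v', β, k⟩ | z' <;> simp [sub]
    · apply h.1
      intro b
      rw [hv]
      simp only [phi, aeval_X]
      rcases p with ⟨u', α, i⟩ | z <;> rcases q with ⟨v', β, k⟩ | z' <;> simp [sub]
  | const c =>
    exfalso
    rw [hl] at hv
    simp only at hv
    apply h.1
    intro b
    rw [hv]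
    simp [phi]
  | add => exact Or.inl rfl
  | mul => exact Or.inr rfl

/-- the map that exchanges the arguments that are symmetric in `w` only -/
theorem map_fix {α : Type} (A : Multiset α) (p : Equiv.Perm α) (hA : A.map p = A)
    (P : α → Prop) [DecidablePred P] (hP : ∀ a, P (p a) ↔ P a) :
    A.map (fun a => if P a then p a else a) = A := by
  have h1 : (A.filter P).map p = A.filter P := by
    conv_rhs => rw [← hA]
    rw [Multiset.filter_map]
    congr 1
    apply Multiset.filter_congr
    intro a _
    exact (hP a).symm
  conv_rhs => rw [← Multiset.filter_add_not P A]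
  conv_lhs => rw [← Multiset.filter_add_not P A]
  rw [Multiset.map_add]
  congr 1
  · conv_rhs => rw [← h1]
    apply Multiset.map_congr rfl
    intro a ha
    rw [if_pos (Multiset.mem_filter.mp ha).2]
  · conv_rhs => rw [← Multiset.map_id (A.filter fun a => ¬ P a)]
    apply Multiset.map_congr rfl
    intro a ha
    rw [if_neg (Multiset.mem_filter.mp ha).2]
    rfl

theorem quot_sum {R : Type*} [CommRing R] (J : Ideal R) {α : Type} (A : Multiset α)
    (f f' : α → R) (h : ∀ a ∈ A, f a - f' a ∈ J) :
    (A.map f).sum - (A.map f').sum ∈ J := by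
  rw [← Ideal.Quotient.eq, map_multiset_sum, map_multiset_sum, Multiset.map_map,
    Multiset.map_map]
  congr 1
  apply Multiset.map_congr rfl
  intro a ha
  exact Ideal.Quotient.eq.mpr (h a ha)

theorem quot_prod {R : Type*} [CommRing R] (J : Ideal R) {α : Type} (A : Multiset α)
    (f f' : α → R) (h : ∀ a ∈ A, f a - f' a ∈ J) :
    (A.map f).prod - (A.map f').prod ∈ J := by
  rw [← Ideal.Quotient.eq, map_multiset_prod, map_multiset_prod, Multiset.map_map,
    Multiset.map_map]
  congr 1
  apply Multiset.map_congr rfl
  intro a ha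
  exact Ideal.Quotient.eq.mpr (h a ha)

/-- **Key lemma.**  At a node fixed by an automorphism that exchanges the blocks of `v` and not
those of `u` and `w`, the two shifts agree modulo the gates that see the triple. -/
theorem free_mem (hval : IsVal C val) (u v w : Fin r) (J : Ideal (MvPolynomial (V2 s) F))
    (hJ : ∀ g, Sees C val u v w g →
      phi F r s Z u v w 1 0 (val g) - phi F r s Z u v w 0 0 (val g) ∈ J)
    (n : ℕ) : ∀ g, C.num g < n → ∀ x : Fin r → ZMod 2, x u = 0 → x v = 1 → x w = 0 →
      Fixes C x g → phi F r s Z u v w 1 0 (val g) - phi F r s Z u v w 0 0 (val g) ∈ J := by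
  classical
  induction n with
  | zero => intro g hg; exact absurd hg (Nat.not_lt_zero _)
  | succ n ih =>
    intro g hg x hxu hxv hxw hfix
    obtain ⟨p, hp, hpg⟩ := hfix
    -- the symmetry on values
    have hsh : ∀ (h : G) (a b : ZMod 2), phi F r s Z u v w a b (val (p h)) =
        phi F r s Z u v w (a + 1) (b + 1) (val h) := by
      intro h a b
      rw [val_aut hval hp, phi_rename, hxu, hxv, hxw]
      simp
    let Uf : G → Prop := fun h =>
      ∀ b, phi F r s Z u v w 0 b (val h) = phi F r s Z u v w 1 b (val h)
    let Wf : G → Prop := fun h =>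
      ∀ a, phi F r s Z u v w a 0 (val h) = phi F r s Z u v w a 1 (val h)
    have e11 : (1 : ZMod 2) + 1 = 0 := by decide
    have hUf : ∀ h, Uf (p h) ↔ Uf h := by
      intro h
      constructor
      · intro h1 b
        have h2 := h1 (b + 1)
        rw [hsh, hsh, zero_add, e11, add_assoc, e11, add_zero] at h2
        exact h2.symm
      · intro h1 b
        show phi F r s Z u v w 0 b (val (p h)) = phi F r s Z u v w 1 b (val (p h))
        rw [hsh, hsh, zero_add, e11]
        exact (h1 (b + 1)).symm
    have hWf : ∀ h, Wf (p h) ↔ Wf h := by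
      intro h
      constructor
      · intro h1 a
        have h2 := h1 (a + 1)
        rw [hsh, hsh, zero_add, e11, add_assoc, e11, add_zero] at h2
        exact h2.symm
      · intro h1 a
        show phi F r s Z u v w a 0 (val (p h)) = phi F r s Z u v w a 1 (val (p h))
        rw [hsh, hsh, zero_add, e11]
        exact (h1 (a + 1)).symm
    have hargs : (C.args g).map p = C.args g := by
      rw [← (hp g).2, hpg]
    have hperm := map_fix (C.args g) p hargs (fun h => Wf h ∧ ¬ Uf h)
      (fun h => by simp only [hUf, hWf])
    -- comparison of the children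
    have hch : ∀ h ∈ C.args g, phi F r s Z u v w 1 0 (val h) -
        phi F r s Z u v w 0 0 (val (if Wf h ∧ ¬ Uf h then p h else h)) ∈ J := by
      intro h hh
      by_cases h1 : Wf h ∧ ¬ Uf h
      · rw [if_pos h1, hsh, zero_add]
        have h2 := h1.1 1
        rw [h2, sub_self]
        exact J.zero_mem
      · rw [if_neg h1]
        by_cases h2 : Uf h
        · rw [h2 0, sub_self]
          exact J.zero_mem
        · have h3 : ¬ Wf h := fun h3 => h1 ⟨h3, h2⟩
          by_cases h4 : ∃ y : Fin r → ZMod 2, y u = 0 ∧ y v = 1 ∧ y w = 0 ∧ Fixes C y h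
          · obtain ⟨y, hyu, hyv, hyw, hy⟩ := h4
            exact ih h (lt_of_lt_of_le (C.num_lt g h hh) (Nat.lt_succ_iff.mp hg)) y hyu hyv
              hyw hy
          · exact hJ h ⟨h2, h3, h4⟩
    have hv := hval g
    cases hl : C.lab g with
    | var i =>
      rw [hl] at hv
      simp only at hv
      have hfx : ∀ a b, phi F r s Z u v w a b (val g) =
          phi F r s Z u v w (a + 1) (b + 1) (val g) := by
        intro a b
        conv_lhs => rw [← hpg]
        exact hsh g a b
      rcases i with ⟨p', q'⟩ | ⟨p', q'⟩
      · have h1 : phi F r s Z u v w 1 0 (val g) = phi F r s Z u v w 1 1 (val g) := by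
          rw [hv]
          simp only [phi, aeval_X]
          rcases p' with ⟨u', α, i⟩ | z <;> rcases q' with ⟨v', β, k⟩ | z' <;> simp [sub]
        rw [h1, hfx 0 0, zero_add, sub_self]
        exact J.zero_mem
      · have h1 : phi F r s Z u v w 1 0 (val g) = phi F r s Z u v w 0 0 (val g) := by
          rw [hv]
          simp only [phi, aeval_X]
          rcases p' with ⟨u', α, i⟩ | z <;> rcases q' with ⟨v', β, k⟩ | z' <;> simp [sub]
        rw [h1, sub_self]
        exact J.zero_mem
    | const c =>
      rw [hl] at hv
      simp only at hv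
      rw [hv]
      simp [phi]
    | add =>
      rw [hl] at hv
      simp only at hv
      rw [hv, map_multiset_sum, map_multiset_sum, Multiset.map_map, Multiset.map_map]
      have e : (C.args g).map (⇑(phi F r s Z u v w 0 0) ∘ val) =
          (C.args g).map ((⇑(phi F r s Z u v w 0 0) ∘ val) ∘
            fun h => if Wf h ∧ ¬ Uf h then p h else h) := by
        conv_lhs => rw [← hperm]
        rw [Multiset.map_map]
      rw [e]
      exact quot_sum J _ _ _ hch
    | mul =>
      rw [hl] at hv
      simp only at hv
      rw [hv, map_multiset_prod, map_multiset_prod, Multiset.map_map, Multiset.map_map]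
      have e : (C.args g).map (⇑(phi F r s Z u v w 0 0) ∘ val) =
          (C.args g).map ((⇑(phi F r s Z u v w 0 0) ∘ val) ∘
            fun h => if Wf h ∧ ¬ Uf h then p h else h) := by
        conv_lhs => rw [← hperm]
        rw [Multiset.map_map]
      rw [e]
      exact quot_prod J _ _ _ hch

end sees

end Pool.Agent.H522R3.LS
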