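import Pool.Agent.H522R3.LS.Upper

/-!
# Small groups of exchanges that realise all patterns on few pairs
-/

namespace Pool.Agent.H522R3.LS

/-- Every pattern on at most `k` of the `r` pairs is realised by a member of `Γ`. -/
def Rich {r : ℕ} (k : ℕ) (Γ : Set (Fin r → ZMod 2)) : Prop :=
  ∀ A : Finset (Fin r), A.card ≤ k → ∀ y : Fin r → ZMod 2, ∃ x ∈ Γ, ∀ c ∈ A, x c = y c

theorem exists_small_rich (r k : ℕ) (hr : 1 ≤ r) :
    ∃ Γ : AddSubgroup (Fin r → ZMod 2), Nat.card Γ ≤ (2 * r) ^ k ∧
      Rich k (Γ : Set (Fin r → ZMod 2)) := by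
  classical
  -- the field
  obtain ⟨e, he0, hre, her⟩ : ∃ e : ℕ, e ≠ 0 ∧ r ≤ 2 ^ e ∧ 2 ^ e ≤ 2 * r := by
    rcases Nat.lt_or_ge r 2 with h | h
    · exact ⟨1, one_ne_zero, by omega, by omega⟩
    · refine ⟨Nat.clog 2 r, (Nat.clog_pos (by norm_num) h).ne', Nat.le_pow_clog (by norm_num) r,
        ?_⟩
      have h1 := Nat.pow_pred_clog_lt_self (b := 2) (by norm_num) (x := r) (by omega)
      have h2 : Nat.clog 2 r = (Nat.clog 2 r).pred + 1 :=
        (Nat.succ_pred_eq_of_pos (Nat.clog_pos (by norm_num) h)).symm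
      rw [h2, pow_succ]
      omega
  let K := GaloisField 2 e
  have hcard : Nat.card K = 2 ^ e := GaloisField.card 2 e he0
  haveI : Finite K := Nat.finite_of_card_ne_zero (by rw [hcard]; positivity)
  haveI : Fintype K := Fintype.ofFinite K
  have hcard' : Fintype.card K = 2 ^ e := by rw [← Nat.card_eq_fintype_card, hcard]
  obtain ⟨pt, hpt⟩ : ∃ f : Fin r → K, Function.Injective f := by
    have : Fintype.card (Fin r) ≤ Fintype.card K := by
      rw [Fintype.card_fin, hcard']
      exact hre
    obtain ⟨f⟩ := Function.Embedding.nonempty_of_card_le this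
    exact ⟨f, f.injective⟩
  obtain ⟨φ, hφ⟩ : ∃ φ : Module.Dual (ZMod 2) K, φ 1 = 1 := by
    by_contra hcon
    push Not at hcon
    have h1 : ∀ φ : Module.Dual (ZMod 2) K, φ 1 = 0 := by
      intro φ
      rcases z2_cases (φ 1) with h | h
      · exact h
      · exact absurd h (hcon φ)
    exact one_ne_zero ((Module.forall_dual_apply_eq_zero_iff (ZMod 2) (1 : K)).mp h1)
  let Φ : (Fin k → K) →+ (Fin r → ZMod 2) :=
    { toFun := fun c v => φ (∑ i, c i * pt v ^ (i : ℕ))
      map_zero' := by
        funext v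
        simp
      map_add' := by
        intro c c'
        funext v
        simp only [Pi.add_apply, add_mul, Finset.sum_add_distrib, map_add] }
  refine ⟨Φ.range, ?_, ?_⟩
  · have h1 : Nat.card Φ.range ≤ Nat.card (Fin k → K) :=
      Nat.card_le_card_of_surjective Φ.rangeRestrict Φ.rangeRestrict_surjective
    refine h1.trans ?_
    rw [Nat.card_eq_fintype_card, Fintype.card_fun, Fintype.card_fin, hcard']
    exact Nat.pow_le_pow_left her k
  · intro A hA y
    let P : Polynomial K := Lagrange.interpolate A pt fun v => if y v = 0 then 0 else 1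
    have hinj : Set.InjOn pt (A : Set (Fin r)) := hpt.injOn
    have hdeg : P.degree < A.card := Lagrange.degree_interpolate_lt _ hinj
    refine ⟨Φ fun i => P.coeff i, ⟨_, rfl⟩, ?_⟩
    intro c hc
    show φ (∑ i : Fin k, P.coeff i * pt c ^ (i : ℕ)) = y c
    have hsum : ∑ i : Fin k, P.coeff i * pt c ^ (i : ℕ) = P.eval (pt c) := by
      rw [Fin.sum_univ_eq_sum_range (fun i => P.coeff i * pt c ^ i) k]
      by_cases hP : P = 0
      · simp [hP]
      · rw [Polynomial.eval_eq_sum_range']
        rw [Polynomial.natDegree_lt_iff_degree_lt hP]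
        exact lt_of_lt_of_le hdeg (by exact_mod_cast hA)
    rw [hsum, Lagrange.eval_interpolate_at_node _ hinj hc]
    rcases z2_cases (y c) with h | h
    · simp [h]
    · simp [h, hφ]

end Pool.Agent.H522R3.LS
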