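import Pool.Agent.H522R3.LS.Circ

/-!
# Counting the gates that see the triples
-/

namespace Pool.Agent.H522R3.LS

open MvPolynomial

/-! ### One triple -/

section triple

variable {F G Z : Type} [Field F] {r s : ℕ} [Fintype Z] [Fintype G]
  {C : Circ (Vr r s Z) F G} {val : G → MvPolynomial (Vr r s Z) F}

omit [Fintype G] in
theorem triple_bound (hval : IsVal C val) (out : Ix r s Z → Ix r s Z → G)
    (hout : ∀ p q, val (out p q) = prodEntry F p q) (u v w : Fin r) (x : Fin r → ZMod 2)
    (hxu : x u = 0) (hxv : x v = 1) (hxw : x w = 0) (π : Equiv.Perm G)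
    (hp : IsAut C (swV x) π) (hpo : ∀ a b, π (out a b) = out (sw x a) (sw x b))
    (S : Finset G) (hS : ∀ g, Sees C val u v w g → g ∈ S) :
    s ^ 2 ≤ 4 * S.card := by
  classical
  have h := entries_mem_ideal (F := F) (s := s) (ι := S)
    (fun g => phi F r s Z u v w 1 0 (val g.1) - phi F r s Z u v w 0 0 (val g.1))
    (fun g => by rw [map_sub, const_phi, const_phi, sub_self]) ?_
  · simpa using h
  intro i j
  set J := Ideal.span (Set.range fun g : S =>
    phi F r s Z u v w 1 0 (val g.1) - phi F r s Z u v w 0 0 (val g.1)) with hJ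
  have hJ' : ∀ g, Sees C val u v w g →
      phi F r s Z u v w 1 0 (val g) - phi F r s Z u v w 0 0 (val g) ∈ J := by
    intro g hg
    exact Ideal.subset_span ⟨⟨g, hS g hg⟩, rfl⟩
  have hfix : Fixes C x (out (.inl (u, 0, i)) (.inl (w, 0, j))) := by
    refine ⟨π, hp, ?_⟩
    rw [hpo]
    simp [sw, hxu, hxw]
  have h1 := free_mem hval u v w J hJ' _ _ (Nat.lt_succ_self _) x hxu hxv hxw hfix
  rw [hout, phi_prodEntry, phi_prodEntry] at h1
  rw [if_neg (by decide), if_pos (by decide), zero_sub] at h1
  exact (Ideal.neg_mem_iff J).mp h1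

end triple

/-! ### The covering argument -/

section cover

variable {α G : Type} [DecidableEq α]

/-- `k` sets of the family, each with an element outside the earlier ones -/
def Chain (T0 : Set (Finset α)) (k : ℕ) (T : ℕ → Finset α) (z : ℕ → α) : Prop :=
  (∀ i < k, T i ∈ T0 ∧ z i ∈ T i) ∧ ∀ i j, i < j → j < k → z j ∉ T i

theorem chain_or (T0 : Set (Finset α)) (z₀ : α) (n : ℕ) :
    (∃ T z, Chain T0 n T z) ∨
      ∃ k < n, ∃ T z, Chain T0 k T z ∧ ∀ T' ∈ T0, T' ⊆ (Finset.range k).biUnion T := by
  induction n with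
  | zero =>
    left
    exact ⟨fun _ => ∅, fun _ => z₀, fun i hi => absurd hi (Nat.not_lt_zero _),
      fun i j _ hj => absurd hj (Nat.not_lt_zero _)⟩
  | succ n ih =>
    rcases ih with ⟨T, z, h⟩ | ⟨k, hk, h⟩
    · by_cases hcov : ∀ T' ∈ T0, T' ⊆ (Finset.range n).biUnion T
      · right
        exact ⟨n, Nat.lt_succ_self _, T, z, h, hcov⟩
      · left
        push Not at hcov
        obtain ⟨T', hT', hsub⟩ := hcov
        obtain ⟨z', hz', hz''⟩ := Finset.not_subset.mp hsub
        refine ⟨Function.update T n T', Function.update z n z', ?_, ?_⟩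
        · intro i hi
          rcases Nat.lt_succ_iff_lt_or_eq.mp hi with h' | rfl
          · rw [Function.update_of_ne h'.ne, Function.update_of_ne h'.ne]
            exact h.1 i h'
          · rw [Function.update_self, Function.update_self]
            exact ⟨hT', hz'⟩
        · intro i j hij hj
          have hin : i < n := by omega
          rw [Function.update_of_ne hin.ne]
          rcases Nat.lt_succ_iff_lt_or_eq.mp hj with h' | rfl
          · rw [Function.update_of_ne h'.ne]
            exact h.2 i j hij h'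
          · rw [Function.update_self]
            intro hc
            exact hz'' (Finset.mem_biUnion.mpr ⟨i, Finset.mem_range.mpr hin, hc⟩)
    · right
      exact ⟨k, by omega, h⟩

/-- the indicator pattern of the chosen elements -/
def patt (z : ℕ → α) (S : Finset ℕ) : α → ZMod 2 :=
  fun c => if ∃ i ∈ S, z i = c then 1 else 0

theorem chain_card (T0 : Set (Finset α)) (h3 : ∀ T ∈ T0, T.card ≤ 3) (Ops : Finset G)
    (R : (α → ZMod 2) → G → Prop) (Fx : (α → ZMod 2) → Prop)
    (hR : ∀ x y h, R x h → R y h → Fx (x + y)) (hRO : ∀ x h, R x h → h ∈ Ops)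
    (hfree : ∀ T ∈ T0, ∀ z ∈ T, ∀ x, Fx x → ¬ ∀ c ∈ T, x c = if c = z then 1 else 0)
    {m : ℕ} (hpat : ∀ A : Finset α, A.card ≤ 3 * m → ∀ y : α → ZMod 2,
      ∃ x h, (∀ c ∈ A, x c = y c) ∧ R x h)
    {k : ℕ} (hk : k ≤ m) {T : ℕ → Finset α} {z : ℕ → α} (hch : Chain T0 k T z) :
    2 ^ k ≤ Ops.card := by
  classical
  set A := (Finset.range k).biUnion T with hA
  have hAc : A.card ≤ 3 * m := by
    have h1 : A.card ≤ (Finset.range k).card * 3 :=
      Finset.card_biUnion_le_card_mul _ _ _ fun i hi =>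
        h3 _ (hch.1 i (Finset.mem_range.mp hi)).1
    rw [Finset.card_range] at h1
    omega
  have hTA : ∀ i < k, T i ⊆ A := fun i hi =>
    Finset.subset_biUnion_of_mem T (Finset.mem_range.mpr hi)
  choose x h hx hh using fun S : Finset ℕ => hpat A hAc (patt z S)
  have hinj : Set.InjOn h ((Finset.range k).powerset : Set (Finset ℕ)) := by
    intro S hS S' hS' hSS
    rw [Finset.mem_coe, Finset.mem_powerset] at hS hS'
    by_contra hne
    have hsd : (symmDiff S S').Nonempty := by
      rw [Finset.nonempty_iff_ne_empty]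
      intro he
      apply hne
      exact symmDiff_eq_bot.mp he
    set i := (symmDiff S S').min' hsd with hi
    have hmem := Finset.min'_mem _ hsd
    rw [← hi] at hmem
    have hlt : i < k := by
      rcases Finset.mem_symmDiff.mp hmem with h' | h'
      · exact Finset.mem_range.mp (hS h'.1)
      · exact Finset.mem_range.mp (hS' h'.1)
    have hmin : ∀ j, j < i → (j ∈ S ↔ j ∈ S') := by
      intro j hj
      by_contra hc
      have : j ∈ symmDiff S S' := by
        rw [Finset.mem_symmDiff]
        tauto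
      have := Finset.min'_le _ j this
      omega
    have hFx := hR _ _ _ (hh S) (hSS ▸ hh S')
    refine hfree (T i) (hch.1 i hlt).1 (z i) (hch.1 i hlt).2 _ hFx ?_
    intro c hc
    have hcA := hTA i hlt hc
    rw [Pi.add_apply, hx S c hcA, hx S' c hcA]
    -- members of the chain in `T i`
    have hback : ∀ j, j < k → z j = c → j ≤ i := by
      intro j hj hjc
      by_contra hlt'
      push Not at hlt'
      exact hch.2 i j hlt' hj (hjc ▸ hc)
    by_cases hcz : c = z i
    · rw [if_pos hcz]
      have hzi : ∀ S'' ⊆ Finset.range k, ((∃ j ∈ S'', z j = c) ↔ i ∈ S'') := by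
        intro S'' hS''
        constructor
        · rintro ⟨j, hj, hjc⟩
          have hjk := Finset.mem_range.mp (hS'' hj)
          have h1 := hback j hjk hjc
          rcases h1.lt_or_eq with h2 | h2
          · exfalso
            have := hch.2 j i h2 hlt
            apply this
            rw [← hcz, ← hjc]
            exact (hch.1 j hjk).2
          · rwa [← h2]
        · intro hi'
          exact ⟨i, hi', hcz.symm⟩
      unfold patt
      rw [Finset.mem_symmDiff] at hmem
      simp only [hzi S hS, hzi S' hS']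
      rcases hmem with ⟨h1, h2⟩ | ⟨h1, h2⟩
      · simp [h1, h2]
      · simp [h1, h2]
    · rw [if_neg hcz]
      have heq : (∃ j ∈ S, z j = c) ↔ ∃ j ∈ S', z j = c := by
        constructor
        · rintro ⟨j, hj, hjc⟩
          have h1 := hback j (Finset.mem_range.mp (hS hj)) hjc
          rcases h1.lt_or_eq with h2 | h2
          · exact ⟨j, (hmin j h2).mp hj, hjc⟩
          · exact absurd (h2 ▸ hjc).symm hcz
        · rintro ⟨j, hj, hjc⟩
          have h1 := hback j (Finset.mem_range.mp (hS' hj)) hjc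
          rcases h1.lt_or_eq with h2 | h2
          · exact ⟨j, (hmin j h2).mpr hj, hjc⟩
          · exact absurd (h2 ▸ hjc).symm hcz
      unfold patt
      simp only [heq]
      exact CharTwo.add_self_eq_zero _
  have hcard := Finset.card_le_card_of_injOn h
    (s := (Finset.range k).powerset) (t := Ops) (fun S _ => hRO _ _ (hh S)) hinj
  rwa [Finset.card_powerset, Finset.card_range] at hcard

theorem cover_bound [Nonempty α] (T0 : Set (Finset α)) (h3 : ∀ T ∈ T0, T.card ≤ 3)
    (Ops : Finset G) (R : (α → ZMod 2) → G → Prop) (Fx : (α → ZMod 2) → Prop)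
    (hR : ∀ x y h, R x h → R y h → Fx (x + y)) (hRO : ∀ x h, R x h → h ∈ Ops)
    (hfree : ∀ T ∈ T0, ∀ z ∈ T, ∀ x, Fx x → ¬ ∀ c ∈ T, x c = if c = z then 1 else 0)
    (hpat : ∀ A : Finset α, A.card ≤ 3 * (Nat.log 2 Ops.card + 1) → ∀ y : α → ZMod 2,
      ∃ x h, (∀ c ∈ A, x c = y c) ∧ R x h) :
    ∃ A : Finset α, A.card ≤ 3 * Nat.log 2 Ops.card ∧ ∀ T' ∈ T0, T' ⊆ A := by
  classical
  obtain ⟨z₀⟩ := ‹Nonempty α›
  have hpos : Ops.card ≠ 0 := by
    obtain ⟨x, h, _, hx⟩ := hpat ∅ (by simp) 0
    exact (Finset.card_pos.mpr ⟨h, hRO _ _ hx⟩).ne'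
  rcases chain_or T0 z₀ (Nat.log 2 Ops.card + 1) with ⟨T, z, h⟩ | ⟨k, hk, T, z, h, hcov⟩
  · exfalso
    have h1 := chain_card T0 h3 Ops R Fx hR hRO hfree hpat le_rfl h
    have h2 := Nat.lt_pow_succ_log_self (b := 2) (by norm_num) Ops.card
    omega
  · refine ⟨(Finset.range k).biUnion T, ?_, hcov⟩
    have h1 : ((Finset.range k).biUnion T).card ≤ (Finset.range k).card * 3 :=
      Finset.card_biUnion_le_card_mul _ _ _ fun i hi =>
        h3 _ (h.1 i (Finset.mem_range.mp hi)).1
    rw [Finset.card_range] at h1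
    omega

end cover

/-! ### The lower bound -/

section main

variable {F G Z : Type} [Field F] {r s : ℕ} [Fintype Z] [Fintype G]

/-- the number of gates of a circuit: the nodes labelled with an operation -/
noncomputable def gates {V F G : Type} [Fintype G] (C : Circ V F G) : ℕ := by
  classical
  exact (Finset.univ.filter fun g => C.lab g = .add ∨ C.lab g = .mul).card

theorem relabel_op {V F : Type} (f : V → V) (l : Lab V F) (h : l = .add ∨ l = .mul) :
    l.relabel f = .add ∨ l.relabel f = .mul := by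
  rcases h with rfl | rfl
  · exact Or.inl rfl
  · exact Or.inr rfl

omit [Fintype Z] in
theorem gate_bound {C : Circ (Vr r s Z) F G} {val : G → MvPolynomial (Vr r s Z) F}
    (hval : IsVal C val)
    (hG : ∀ A : Finset (Fin r), A.card ≤ 3 * (Nat.log 2 (gates C) + 1) →
      ∀ y : Fin r → ZMod 2, ∃ x : Fin r → ZMod 2, (∀ c ∈ A, x c = y c) ∧
        ∃ π : Equiv.Perm G, IsAut C (swV x) π) (g : G)
    (hop : C.lab g = .add ∨ C.lab g = .mul) (E : Finset (Fin 3 ↪ Fin r))
    (hE : ∀ e ∈ E, Sees C val (e 0) (e 1) (e 2) g) :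
    E.card ≤ (3 * Nat.log 2 (gates C)) ^ 3 := by
  classical
  rcases E.eq_empty_or_nonempty with rfl | ⟨e₀, _⟩
  · simp
  have : Nonempty (Fin r) := ⟨e₀ 0⟩
  set Ops := Finset.univ.filter fun g => C.lab g = .add ∨ C.lab g = .mul with hOps
  have hOc : gates C = Ops.card := by
    unfold gates
    simp only [hOps]
  rw [hOc] at hG ⊢
  let T0 : Set (Finset (Fin r)) := {T | ∃ e ∈ E, T = {e 0, e 1, e 2}}
  obtain ⟨A, hA, hcov⟩ := cover_bound (G := G) T0
    (by
      rintro T ⟨e, _, rfl⟩
      exact Finset.card_le_three) Ops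
    (fun x h => ∃ π : Equiv.Perm G, IsAut C (swV x) π ∧ π g = h)
    (fun x => Fixes C x g)
    (by
      rintro x y h ⟨π, hπ, hπg⟩ ⟨π', hπ', hπg'⟩
      refine ⟨π'⁻¹ * π, ?_, ?_⟩
      · have := isAut_mul hπ (isAut_symm hπ')
        rwa [swV_comp] at this
      · rw [Equiv.Perm.mul_apply, hπg, ← hπg']
        exact π'.symm_apply_apply g)
    (by
      rintro x h ⟨π, hπ, rfl⟩
      rw [hOps, Finset.mem_filter]
      refine ⟨Finset.mem_univ _, ?_⟩
      rw [(hπ g).1]
      exact relabel_op _ _ hop)
    (by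
      rintro T ⟨e, he, rfl⟩ z hz x hx hcon
      have hn := sees_not_fixes hval (hE e he) hx
      have h01 : e 0 ≠ e 1 := fun h => by simpa using e.injective h
      have h02 : e 0 ≠ e 2 := fun h => by simpa using e.injective h
      have h12 : e 1 ≠ e 2 := fun h => by simpa using e.injective h
      have c0 := hcon (e 0) (by simp)
      have c1 := hcon (e 1) (by simp)
      have c2 := hcon (e 2) (by simp)
      rw [Finset.mem_insert, Finset.mem_insert, Finset.mem_singleton] at hz
      rcases hz with rfl | rfl | rfl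
      · apply hn.1
        rw [if_pos rfl] at c0
        rw [if_neg h01.symm] at c1
        rw [if_neg h02.symm] at c2
        exact ⟨c0, c1, c2⟩
      · apply hn.2.1
        rw [if_neg h01] at c0
        rw [if_pos rfl] at c1
        rw [if_neg h12.symm] at c2
        exact ⟨c0, c1, c2⟩
      · apply hn.2.2
        rw [if_neg h02] at c0
        rw [if_neg h12] at c1
        rw [if_pos rfl] at c2
        exact ⟨c0, c1, c2⟩)
    (by
      intro A hA y
      obtain ⟨x, hx, π, hπ⟩ := hG A hA y
      exact ⟨x, π g, hx, π, hπ, rfl⟩)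
  have hmem : ∀ e ∈ E, ∀ i : Fin 3, e i ∈ A := by
    intro e he i
    apply hcov _ ⟨e, he, rfl⟩
    fin_cases i <;> simp
  have hcard : E.card ≤ (Fintype.piFinset fun _ : Fin 3 => A).card := by
    apply Finset.card_le_card_of_injOn (fun e : Fin 3 ↪ Fin r => (⇑e : Fin 3 → Fin r))
    · intro e he
      rw [Finset.mem_coe, Fintype.mem_piFinset]
      exact hmem e he
    · intro e _ e' _ h
      exact DFunLike.coe_injective h
  rw [Fintype.card_piFinset, Finset.prod_const, Finset.card_univ, Fintype.card_fin] at hcard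
  exact hcard.trans (Nat.pow_le_pow_left hA 3)

/-- **The lower bound.** -/
theorem lower (C : Circ (Vr r s Z) F G) (val : G → MvPolynomial (Vr r s Z) F)
    (hval : IsVal C val) (out : Ix r s Z → Ix r s Z → G)
    (hout : ∀ p q, val (out p q) = prodEntry F p q)
    (hG : ∀ A : Finset (Fin r), A.card ≤ 3 * (Nat.log 2 (gates C) + 1) →
      ∀ y : Fin r → ZMod 2, ∃ x : Fin r → ZMod 2, (∀ c ∈ A, x c = y c) ∧
        ∃ π : Equiv.Perm G, IsAut C (swV x) π ∧
          ∀ p q, π (out p q) = out (sw x p) (sw x q)) :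
    (r - 2) ^ 3 * s ^ 2 ≤ 4 * (gates C * (3 * Nat.log 2 (gates C)) ^ 3) := by
  classical
  set Ops := Finset.univ.filter fun g => C.lab g = .add ∨ C.lab g = .mul with hOps
  have hOc : gates C = Ops.card := by
    unfold gates
    simp only [hOps]
  have h1 : ∀ e : Fin 3 ↪ Fin r, s ^ 2 ≤
      4 * (Ops.filter fun g => Sees C val (e 0) (e 1) (e 2) g).card := by
    intro e
    have h01 : e 0 ≠ e 1 := fun h => by simpa using e.injective h
    have h12 : e 1 ≠ e 2 := fun h => by simpa using e.injective h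
    obtain ⟨x, hx, π, hπ, hπo⟩ := hG {e 0, e 1, e 2}
      (Finset.card_le_three.trans (by omega)) (fun c => if c = e 1 then 1 else 0)
    have x0 := hx (e 0) (by simp)
    have x1 := hx (e 1) (by simp)
    have x2 := hx (e 2) (by simp)
    rw [if_neg h01] at x0
    rw [if_pos rfl] at x1
    rw [if_neg h12.symm] at x2
    apply triple_bound hval out hout (e 0) (e 1) (e 2) x x0 x1 x2 π hπ hπo
    intro g hg
    rw [Finset.mem_filter, hOps, Finset.mem_filter]
    exact ⟨⟨Finset.mem_univ _, sees_op hval hg⟩, hg⟩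
  have h2 : (r - 2) ^ 3 * s ^ 2 ≤
      ∑ e : Fin 3 ↪ Fin r, 4 * (Ops.filter fun g => Sees C val (e 0) (e 1) (e 2) g).card := by
    calc (r - 2) ^ 3 * s ^ 2 ≤ (r.descFactorial 3) * s ^ 2 := by
          apply Nat.mul_le_mul_right
          have := Nat.pow_sub_le_descFactorial r 3
          have e : r + 1 - 3 = r - 2 := by omega
          rwa [e] at this
      _ = ∑ _e : Fin 3 ↪ Fin r, s ^ 2 := by
          rw [Finset.sum_const, Finset.card_univ, Fintype.card_embedding_eq,
            Fintype.card_fin, Fintype.card_fin, smul_eq_mul]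
      _ ≤ _ := Finset.sum_le_sum fun e _ => h1 e
  refine h2.trans ?_
  rw [← Finset.mul_sum]
  apply Nat.mul_le_mul_left
  have h3 : ∑ e : Fin 3 ↪ Fin r, (Ops.filter fun g => Sees C val (e 0) (e 1) (e 2) g).card =
      ∑ g ∈ Ops, (Finset.univ.filter fun e : Fin 3 ↪ Fin r =>
        Sees C val (e 0) (e 1) (e 2) g).card := by
    simp only [Finset.card_filter]
    rw [Finset.sum_comm]
  rw [h3]
  calc _ ≤ ∑ g ∈ Ops, (3 * Nat.log 2 (gates C)) ^ 3 := by
        apply Finset.sum_le_sum
        intro g hg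
        apply gate_bound hval (fun A hA y => ?_) g (Finset.mem_filter.mp hg).2
        · intro e he
          exact (Finset.mem_filter.mp he).2
        · obtain ⟨x, hx, π, hπ, _⟩ := hG A hA y
          exact ⟨x, hx, π, hπ⟩
    _ = gates C * (3 * Nat.log 2 (gates C)) ^ 3 := by
        rw [Finset.sum_const, smul_eq_mul, ← hOc]

end main

end Pool.Agent.H522R3.LS
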