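import Pool.Agent.H522R3.LS.Rand

/-!
# Circuits symmetric under a good code
-/

namespace Pool.Agent.H522R3.LS

/-- the codeword with the given message -/
def cw {r κ : ℕ} (a : Fin r → Vec κ) (b : Vec κ) : Fin r → ZMod 2 :=
  fun u => ∑ c, b c * a u c

theorem cw_add {r κ : ℕ} (a : Fin r → Vec κ) (b b' : Vec κ) :
    cw a (b + b') = cw a b + cw a b' := by
  funext u
  simp [cw, add_mul, Finset.sum_add_distrib]

theorem cw_zero {r κ : ℕ} (a : Fin r → Vec κ) : cw a 0 = 0 := by
  funext u
  simp [cw]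

theorem cw_smul {r κ : ℕ} (a : Fin r → Vec κ) (t : ZMod 2) (b : Vec κ) :
    cw a (t • b) = t • cw a b := by
  funext u
  simp only [cw, Pi.smul_apply, smul_eq_mul, Finset.mul_sum]
  exact Finset.sum_congr rfl fun c _ => by ring

/-- the code as a group of patterns -/
def code {r κ : ℕ} (a : Fin r → Vec κ) : AddSubgroup (Fin r → ZMod 2) :=
  (AddMonoidHom.mk' (cw a) (cw_add a)).range

theorem cw_mem_code {r κ : ℕ} (a : Fin r → Vec κ) (b : Vec κ) : cw a b ∈ code a :=
  ⟨b, rfl⟩

theorem card_code {r κ : ℕ} (a : Fin r → Vec κ) : Nat.card (code a) ≤ 2 ^ κ := by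
  have h1 : Nat.card (code a) ≤ Nat.card (Vec κ) :=
    Nat.card_le_card_of_surjective _ (AddMonoidHom.mk' (cw a) (cw_add a)).rangeRestrict_surjective
  refine h1.trans (le_of_eq ?_)
  rw [Nat.card_eq_fintype_card]
  simp [Vec, ZMod.card]

/-- a subspace that misses a unit pattern on a triple yields a dependent vector -/
theorem exists_vec {r κ : ℕ} (a : Fin r → Vec κ) (B : Submodule (ZMod 2) (Vec κ))
    (e : Fin 3 ↪ Fin r) (j : Fin 3)
    (h : ¬ ∃ b ∈ B, ∀ i, cw a b (e i) = if i = j then 1 else 0) :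
    ∃ c : Fin 3 → ZMod 2, c j = 1 ∧ vec ((⇑e, c) : Q3 r) (e j) = 1 ∧
      (∀ u, (∀ i, e i ≠ u) → vec ((⇑e, c) : Q3 r) u = 0) ∧
      ∀ b ∈ B, ∑ k, b k * comb a (vec ((⇑e, c) : Q3 r)) k = 0 := by
  classical
  let φ : Vec κ →ₗ[ZMod 2] (Fin 3 → ZMod 2) :=
    { toFun := fun b i => cw a b (e i)
      map_add' := by intro b b'; funext i; rw [cw_add]; rfl
      map_smul' := by intro t b; funext i; rw [cw_smul]; rfl }
  have hmem : (Pi.single j 1 : Fin 3 → ZMod 2) ∉ B.map φ := by
    intro hm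
    obtain ⟨b, hb, hb'⟩ := Submodule.mem_map.mp hm
    apply h
    refine ⟨b, hb, fun i => ?_⟩
    have := congrFun hb' i
    simp only [Pi.single_apply] at this
    exact this
  obtain ⟨f, hf1, hf2⟩ := Submodule.exists_dual_map_eq_bot_of_notMem hmem inferInstance
  have hf1' : f (Pi.single j 1) = 1 := by
    rcases z2_cases (f (Pi.single j 1)) with h' | h'
    · exact absurd h' hf1
    · exact h'
  have hf0 : ∀ b ∈ B, f (φ b) = 0 := by
    intro b hb
    have : f (φ b) ∈ (B.map φ).map f := Submodule.mem_map_of_mem (Submodule.mem_map_of_mem hb)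
    rw [hf2] at this
    exact (Submodule.mem_bot _).mp this
  have hfs : ∀ x : Fin 3 → ZMod 2, f x = ∑ i, x i * f (Pi.single i 1) := by
    intro x
    conv_lhs => rw [pi_eq_sum_univ' x]
    rw [map_sum]
    apply Finset.sum_congr rfl
    intro i _
    rw [map_smul, smul_eq_mul]
  refine ⟨fun i => f (Pi.single i 1), hf1', ?_, ?_, ?_⟩
  · show (∑ i, if e i = e j then f (Pi.single i 1) else 0) = 1
    rw [Finset.sum_eq_single j]
    · rw [if_pos rfl, hf1']
    · intro i _ hi
      rw [if_neg (fun h => hi (e.injective h))]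
    · simp
  · intro u hu
    show (∑ i, if e i = u then f (Pi.single i 1) else 0) = 0
    exact Finset.sum_eq_zero fun i _ => if_neg (hu i)
  · intro b hb
    have h1 : comb a (vec ((⇑e, fun i => f (Pi.single i 1)) : Q3 r)) =
        ∑ i, f (Pi.single i 1) • a (e i) := by
      unfold comb vec
      simp only [Finset.sum_smul, ite_smul, zero_smul]
      rw [Finset.sum_comm]
      apply Finset.sum_congr rfl
      intro i _
      rw [Finset.sum_ite_eq]
      simp
    rw [h1]
    have h2 := hf0 b hb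
    rw [hfs] at h2
    rw [← h2]
    simp only [Finset.sum_apply, Pi.smul_apply, smul_eq_mul, Finset.mul_sum]
    rw [Finset.sum_comm]
    apply Finset.sum_congr rfl
    intro i _
    show _ = cw a b (e i) * f (Pi.single i 1)
    unfold cw
    rw [Finset.sum_mul]
    exact Finset.sum_congr rfl fun c _ => by ring

/-- the vectors orthogonal to a large subspace form a small one -/
theorem exists_perp {κ N D : ℕ} (B : Submodule (ZMod 2) (Vec κ))
    (hB : 2 ^ κ ≤ Nat.card B * N) (hN : N < 2 ^ (D + 1)) :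
    ∃ K : Submodule (ZMod 2) (Vec κ), Module.finrank (ZMod 2) K ≤ D ∧
      ∀ v : Vec κ, (∀ b ∈ B, ∑ k, b k * v k = 0) → v ∈ K := by
  have hcard : Nat.card B = 2 ^ Module.finrank (ZMod 2) B := by
    rw [Module.natCard_eq_pow_finrank (K := ZMod 2), Nat.card_zmod]
  refine ⟨B.dualAnnihilator.map (dotProductEquiv (ZMod 2) (Fin κ)).symm.toLinearMap, ?_, ?_⟩
  · rw [LinearEquiv.finrank_map_eq]
    have h3 := Subspace.finrank_add_finrank_dualAnnihilator_eq B
    rw [Module.finrank_fin_fun] at h3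
    rw [hcard] at hB
    have h4 : 2 ^ κ < 2 ^ (Module.finrank (ZMod 2) B + (D + 1)) := by
      rw [pow_add]
      exact lt_of_le_of_lt hB (Nat.mul_lt_mul_of_pos_left hN (by positivity))
    have h5 := (Nat.pow_lt_pow_iff_right (by norm_num : 1 < 2)).mp h4
    exact Nat.le_of_add_le_add_left
      (h3.trans_le (by omega : κ ≤ Module.finrank (ZMod 2) B + D))
  · intro v hv
    rw [Submodule.mem_map]
    refine ⟨dotProductEquiv (ZMod 2) (Fin κ) v, ?_, by simp⟩
    rw [Submodule.mem_dualAnnihilator]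
    intro b hb
    rw [dotProductEquiv_apply_apply, dotProduct_comm]
    exact hv b hb

theorem chain_bad {r κ N D k : ℕ} (a : Fin r → Vec κ) (B : Submodule (ZMod 2) (Vec κ))
    (hB : 2 ^ κ ≤ Nat.card B * N) (hN : N < 2 ^ (D + 1)) (hDk : D ≤ k)
    (E : Finset (Fin 3 ↪ Fin r))
    (hE : ∀ e ∈ E, ∀ j, ¬ ∃ b ∈ B, ∀ i, cw a b (e i) = if i = j then 1 else 0)
    {T : ℕ → Finset (Fin r)} {z : ℕ → Fin r}
    (hch : Chain {T | ∃ e ∈ E, T = {e 0, e 1, e 2}} k T z) : Bad k D a := by
  classical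
  have h1 : ∀ i : Fin k, ∃ e ∈ E, T i = {e 0, e 1, e 2} ∧ ∃ j, z i = e j := by
    intro i
    obtain ⟨⟨e, he, hT⟩, hz⟩ := hch.1 i i.isLt
    refine ⟨e, he, hT, ?_⟩
    rw [hT, Finset.mem_insert, Finset.mem_insert, Finset.mem_singleton] at hz
    rcases hz with h | h | h
    exacts [⟨0, h⟩, ⟨1, h⟩, ⟨2, h⟩]
  choose e he hT j hj using h1
  choose c hc1 hc2 hc3 hc4 using fun i => exists_vec a B (e i) (j i) (hE (e i) (he i) (j i))
  obtain ⟨K, hK, hKv⟩ := exists_perp B hB hN
  obtain ⟨I, hI, hspan⟩ := exists_I (fun i : Fin k => comb a (vec ((⇑(e i), c i) : Q3 r)))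
    K hK hDk (fun i => hKv _ (hc4 i))
  refine ⟨fun i => (⇑(e i), c i), ⟨fun i => z i, ?_, ?_⟩, I, hI, hspan⟩
  · intro i
    show vec ((⇑(e i), c i) : Q3 r) (z i) = 1
    rw [hj i]
    exact hc2 i
  · intro i i' hii'
    show vec ((⇑(e i), c i) : Q3 r) (z i') = 0
    apply hc3 i
    intro l hl
    apply hch.2 i i' hii' i'.isLt
    rw [hT i, ← hl]
    fin_cases l <;> simp

section gates

variable {F G Z : Type} [Field F] {r s κ : ℕ} [Fintype G]

/-- the messages of the codewords that fix a gate -/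
def fixMsg (C : Circ (Vr r s Z) F G) (a : Fin r → Vec κ) (g : G) :
    Submodule (ZMod 2) (Vec κ) where
  carrier := {b | Fixes C (cw a b) g}
  add_mem' := by
    rintro b b' ⟨p, hp, hpg⟩ ⟨p', hp', hpg'⟩
    refine ⟨p' * p, ?_, ?_⟩
    · rw [cw_add, ← swV_comp]
      exact isAut_mul hp hp'
    · rw [Equiv.Perm.mul_apply, hpg, hpg']
  zero_mem' := by
    refine ⟨1, ?_, rfl⟩
    rw [cw_zero, swV_zero]
    intro g
    constructor
    · show C.lab g = (C.lab g).relabel id
      cases C.lab g <;> rfl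
    · show C.args g = (C.args g).map id
      rw [Multiset.map_id]
  smul_mem' := by
    intro t b hb
    rcases z2_cases t with h | h
    · rw [h, zero_smul]
      refine ⟨1, ?_, rfl⟩
      rw [cw_zero, swV_zero]
      intro g
      constructor
      · show C.lab g = (C.lab g).relabel id
        cases C.lab g <;> rfl
      · show C.args g = (C.args g).map id
        rw [Multiset.map_id]
    · rw [h, one_smul]
      exact hb

omit [Field F] in
theorem card_fixMsg (C : Circ (Vr r s Z) F G) (a : Fin r → Vec κ)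
    (hsym : ∀ b, ∃ π : Equiv.Perm G, IsAut C (swV (cw a b)) π) (g : G)
    (hop : C.lab g = .add ∨ C.lab g = .mul) :
    2 ^ κ ≤ Nat.card (fixMsg C a g) * gates C := by
  classical
  set Ops := Finset.univ.filter fun g => C.lab g = .add ∨ C.lab g = .mul with hOps
  have hOc : gates C = Ops.card := by
    unfold gates
    simp only [hOps]
  choose π hπ using hsym
  have hmaps : ∀ b ∈ (Finset.univ : Finset (Vec κ)), π b g ∈ Ops := by
    intro b _
    rw [hOps, Finset.mem_filter]
    refine ⟨Finset.mem_univ _, ?_⟩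
    rw [(hπ b g).1]
    exact relabel_op _ _ hop
  have hfib : ∀ h ∈ Ops, (Finset.univ.filter fun b : Vec κ => π b g = h).card ≤
      Nat.card (fixMsg C a g) := by
    intro h _
    rcases (Finset.univ.filter fun b : Vec κ => π b g = h).eq_empty_or_nonempty with he | he
    · rw [he]; simp
    · obtain ⟨b₀, hb₀⟩ := he
      have hb₀' : π b₀ g = h := (Finset.mem_filter.mp hb₀).2
      rw [Nat.card_eq_fintype_card, ← Finset.card_univ]
      apply Finset.card_le_card_of_surjOn (fun x : fixMsg C a g => x.1 + b₀)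
      intro b hb
      have hb' : π b g = h := (Finset.mem_filter.mp (Finset.mem_coe.mp hb)).2
      have hmem : b + b₀ ∈ fixMsg C a g := by
        refine ⟨(π b₀)⁻¹ * π b, ?_, ?_⟩
        · rw [cw_add, ← swV_comp]
          exact isAut_mul (hπ b) (isAut_symm (hπ b₀))
        · rw [Equiv.Perm.mul_apply, hb', ← hb₀']
          exact (π b₀).symm_apply_apply g
      refine ⟨⟨b + b₀, hmem⟩, by simp, ?_⟩
      show b + b₀ + b₀ = b
      rw [add_assoc]
      have : b₀ + b₀ = 0 := by
        funext i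
        exact CharTwo.add_self_eq_zero (b₀ i)
      rw [this, add_zero]
  have h1 := Finset.card_le_mul_card_image_of_maps_to hmaps _ hfib
  rw [Finset.card_univ] at h1
  have h2 : Fintype.card (Vec κ) = 2 ^ κ := by simp [Vec, ZMod.card]
  rw [h2] at h1
  rw [hOc]
  exact h1

theorem gate_bound2 {C : Circ (Vr r s Z) F G} {val : G → MvPolynomial (Vr r s Z) F}
    (hval : IsVal C val) {D : ℕ} (a : Fin r → Vec κ)
    (hsym : ∀ b, ∃ π : Equiv.Perm G, IsAut C (swV (cw a b)) π)
    (hbad : ¬ Bad (4 * D) D a) (hN : gates C < 2 ^ (D + 1)) (g : G)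
    (hop : C.lab g = .add ∨ C.lab g = .mul) (E : Finset (Fin 3 ↪ Fin r))
    (hE : ∀ e ∈ E, Sees C val (e 0) (e 1) (e 2) g) :
    E.card ≤ (12 * D) ^ 3 := by
  classical
  rcases E.eq_empty_or_nonempty with rfl | ⟨e₀, _⟩
  · simp
  have hE' : ∀ e ∈ E, ∀ j, ¬ ∃ b ∈ fixMsg C a g, ∀ i, cw a b (e i) = if i = j then 1 else 0 := by
    rintro e he j ⟨b, hb, hbe⟩
    have hn := sees_not_fixes hval (hE e he) hb
    have c0 := hbe 0
    have c1 := hbe 1
    have c2 := hbe 2
    fin_cases j
    · apply hn.1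
      exact ⟨by simpa using c0, by simpa using c1, by simpa using c2⟩
    · apply hn.2.1
      exact ⟨by simpa using c0, by simpa using c1, by simpa using c2⟩
    · apply hn.2.2
      exact ⟨by simpa using c0, by simpa using c1, by simpa using c2⟩
  rcases chain_or {T | ∃ e ∈ E, T = {e 0, e 1, e 2}} (e₀ 0) (4 * D) with
    ⟨T, z, h⟩ | ⟨k, hk, T, z, h, hcov⟩
  · exact absurd (chain_bad a (fixMsg C a g) (card_fixMsg C a hsym g hop) hN (by omega) E hE' h)
      hbad
  · set A := (Finset.range k).biUnion T with hA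
    have h1 : A.card ≤ (Finset.range k).card * 3 :=
      Finset.card_biUnion_le_card_mul _ _ _ fun i hi => by
        obtain ⟨e, _, hT⟩ := (h.1 i (Finset.mem_range.mp hi)).1
        rw [hT]
        exact Finset.card_le_three
    rw [Finset.card_range] at h1
    have hmem : ∀ e ∈ E, ∀ i : Fin 3, e i ∈ A := by
      intro e he i
      apply hcov _ ⟨e, he, rfl⟩
      fin_cases i <;> simp
    have hcard : E.card ≤ (Fintype.piFinset fun _ : Fin 3 => A).card := by
      apply Finset.card_le_card_of_injOn (fun e : Fin 3 ↪ Fin r => (⇑e : Fin 3 → Fin r))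
      · intro e he
        rw [Finset.mem_coe, Fintype.mem_piFinset]
        exact hmem e he
      · intro e _ e' _ h
        exact DFunLike.coe_injective h
    rw [Fintype.card_piFinset, Finset.prod_const, Finset.card_univ, Fintype.card_fin] at hcard
    exact hcard.trans (Nat.pow_le_pow_left (by omega) 3)

/-- a code without short dependent vectors realises the unit patterns on the triples -/
theorem exists_unit {a : Fin r → Vec κ} (hbad : ¬ Bad 1 0 a) (e : Fin 3 ↪ Fin r) (j : Fin 3) :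
    ∃ b, ∀ i, cw a b (e i) = if i = j then 1 else 0 := by
  classical
  by_contra hcon
  apply hbad
  obtain ⟨c, _, hc2, _, hc4⟩ := exists_vec a ⊤ e j (fun ⟨b, _, hb⟩ => hcon ⟨b, hb⟩)
  have h0 : comb a (vec ((⇑e, c) : Q3 r)) = 0 := by
    funext k
    have := hc4 (Pi.single k 1) Submodule.mem_top
    rw [Finset.sum_eq_single k] at this
    · simpa using this
    · intro l _ hl
      simp [Pi.single_eq_of_ne hl]
    · simp
  refine ⟨fun _ => (⇑e, c), ⟨fun _ => e j, fun _ => hc2, ?_⟩, ∅, rfl, ?_⟩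
  · intro i i' hii'
    exact absurd hii' (by simp [Subsingleton.elim i i'])
  · intro _
    rw [h0]
    exact Submodule.zero_mem _

/-- **The lower bound for circuits symmetric under a good code.** -/
theorem lower2 [Fintype Z] {D : ℕ} (a : Fin r → Vec κ) (hbad : ¬ Bad (4 * D) D a)
    (hbad' : ¬ Bad 1 0 a)
    (C : Circ (Vr r s Z) F G) (val : G → MvPolynomial (Vr r s Z) F)
    (out : Ix r s Z → Ix r s Z → G) (hC : Computes C val out)
    (hsym : ∀ x ∈ code a, Symm C out (sw x)) (hN : gates C < 2 ^ (D + 1)) :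
    (r - 2) ^ 3 * s ^ 2 ≤ 4 * (gates C * (12 * D) ^ 3) := by
  classical
  have hval := hC.1
  have hsym' : ∀ b, ∃ π : Equiv.Perm G, IsAut C (swV (cw a b)) π := by
    intro b
    obtain ⟨π, hπ, _⟩ := hsym _ (cw_mem_code a b)
    exact ⟨π, hπ⟩
  set Ops := Finset.univ.filter fun g => C.lab g = .add ∨ C.lab g = .mul with hOps
  have hOc : gates C = Ops.card := by
    unfold gates
    simp only [hOps]
  have h1 : ∀ e : Fin 3 ↪ Fin r, s ^ 2 ≤
      4 * (Ops.filter fun g => Sees C val (e 0) (e 1) (e 2) g).card := by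
    intro e
    obtain ⟨b, hb⟩ := exists_unit hbad' e 1
    obtain ⟨π, hπ, hπo⟩ := hsym _ (cw_mem_code a b)
    have x0 := hb 0
    have x1 := hb 1
    have x2 := hb 2
    rw [if_neg (by decide)] at x0
    rw [if_pos rfl] at x1
    rw [if_neg (by decide)] at x2
    apply triple_bound hval out hC.2 (e 0) (e 1) (e 2) (cw a b) x0 x1 x2 π hπ hπo
    intro g hg
    rw [Finset.mem_filter, hOps, Finset.mem_filter]
    exact ⟨⟨Finset.mem_univ _, sees_op hval hg⟩, hg⟩
  have h2 : (r - 2) ^ 3 * s ^ 2 ≤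
      ∑ e : Fin 3 ↪ Fin r, 4 * (Ops.filter fun g => Sees C val (e 0) (e 1) (e 2) g).card := by
    calc (r - 2) ^ 3 * s ^ 2 ≤ (r.descFactorial 3) * s ^ 2 := by
          apply Nat.mul_le_mul_right
          have := Nat.pow_sub_le_descFactorial r 3
          have e : r + 1 - 3 = r - 2 := by omega
          rwa [e] at this
      _ = ∑ _e : Fin 3 ↪ Fin r, s ^ 2 := by
          rw [Finset.sum_const, Finset.card_univ, Fintype.card_embedding_eq,
            Fintype.card_fin, Fintype.card_fin, smul_eq_mul]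
      _ ≤ _ := Finset.sum_le_sum fun e _ => h1 e
  refine h2.trans ?_
  rw [← Finset.mul_sum]
  apply Nat.mul_le_mul_left
  have h3 : ∑ e : Fin 3 ↪ Fin r, (Ops.filter fun g => Sees C val (e 0) (e 1) (e 2) g).card =
      ∑ g ∈ Ops, (Finset.univ.filter fun e : Fin 3 ↪ Fin r =>
        Sees C val (e 0) (e 1) (e 2) g).card := by
    simp only [Finset.card_filter]
    rw [Finset.sum_comm]
  rw [h3]
  calc _ ≤ ∑ g ∈ Ops, (12 * D) ^ 3 := by
        apply Finset.sum_le_sum
        intro g hg
        apply gate_bound2 hval a hsym' hbad hN g (Finset.mem_filter.mp hg).2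
        intro e he
        exact (Finset.mem_filter.mp he).2
    _ = gates C * (12 * D) ^ 3 := by
        rw [Finset.sum_const, smul_eq_mul, ← hOc]

end gates

/-- **Groups of polynomial order.** -/
theorem exists_group (r N₀ : ℕ) (hr : 1 ≤ r) (hN : 2 ≤ N₀) :
    ∃ Γ : AddSubgroup (Fin r → ZMod 2), Nat.card Γ ≤ 128 * r ^ 4 * N₀ ∧
      ∀ (F : Type) [Field F] (s : ℕ) (Z G : Type) [Fintype Z] [Fintype G]
      (C : Circ (Vr r s Z) F G) (val : G → MvPolynomial (Vr r s Z) F)
      (out : Ix r s Z → Ix r s Z → G), Computes C val out →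
      (∀ x ∈ Γ, Symm C out (sw x)) → gates C ≤ N₀ →
      (r - 2) ^ 3 * s ^ 2 ≤ 4 * (gates C * (12 * Nat.log 2 N₀) ^ 3) := by
  have hD : 1 ≤ Nat.log 2 N₀ := Nat.log_pos (by norm_num) hN
  obtain ⟨κ, hκ, a, ha, ha'⟩ := exists_good r (Nat.log 2 N₀) hr hD
  refine ⟨code a, ?_, ?_⟩
  · refine (card_code a).trans (hκ.trans ?_)
    exact Nat.mul_le_mul_left _ (Nat.pow_log_le_self 2 (by omega))
  · intro F _ s Z G _ _ C val out hC hsym hCN
    exact lower2 a ha ha' C val out hC hsym
      (lt_of_le_of_lt hCN (Nat.lt_pow_succ_log_self (by norm_num) N₀))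

end Pool.Agent.H522R3.LS
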