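import Pool.Agent.H522R3.LS.Cover2
import Pool.Agent.H522R3.LS.Average

/-!
# Groups of swaps of polynomial order, in terms of the size of the matrices
-/

namespace Pool.Agent.H522R3.LS

theorem exists_group_size (r m : ℕ) (hr : 1 ≤ r) (hrm : r ≤ m) (hm : 2 ≤ m) :
    ∃ Γ : AddSubgroup (Fin r → ZMod 2), Nat.card Γ ≤ 128 * r ^ 5 * m ^ 2 ∧
      ∀ (F : Type) [Field F] (s : ℕ) (Z G : Type) [Fintype Z] [Fintype G]
      (C : Circ (Vr r s Z) F G) (val : G → MvPolynomial (Vr r s Z) F)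
      (out : Ix r s Z → Ix r s Z → G), Computes C val out →
      (∀ x ∈ Γ, Symm C out (sw x)) → Fintype.card (Ix r s Z) = m →
      (r - 2) ^ 3 * s ^ 2 ≤ 4 * (gates C * (36 * (Nat.log 2 m + 1)) ^ 3) := by
  have hN : 2 ≤ r * m ^ 2 := by
    calc 2 ≤ m := hm
      _ = 1 * (m * 1) := by ring
      _ ≤ r * (m * m) := Nat.mul_le_mul hr (Nat.mul_le_mul_left _ (by omega))
      _ = r * m ^ 2 := by ring
  obtain ⟨Γ, hΓ, h⟩ := exists_group r (r * m ^ 2) hr hN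
  refine ⟨Γ, hΓ.trans (le_of_eq (by ring)), ?_⟩
  intro F _ s Z G _ _ C val out hC hsym hcard
  have hlog : 12 * Nat.log 2 (r * m ^ 2) ≤ 36 * (Nat.log 2 m + 1) := by
    have h1 : r * m ^ 2 < 2 ^ (3 * (Nat.log 2 m + 1)) := by
      calc r * m ^ 2 ≤ m * m ^ 2 := Nat.mul_le_mul_right _ hrm
        _ = m ^ 3 := by ring
        _ < (2 ^ (Nat.log 2 m + 1)) ^ 3 :=
          Nat.pow_lt_pow_left (Nat.lt_pow_succ_log_self (by norm_num) m) (by norm_num)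
        _ = 2 ^ (3 * (Nat.log 2 m + 1)) := by rw [← pow_mul, mul_comm]
    have h2 : Nat.log 2 (r * m ^ 2) < 3 * (Nat.log 2 m + 1) :=
      Nat.log_lt_of_lt_pow (by omega) h1
    omega
  by_cases hbig : gates C ≤ r * m ^ 2
  · refine (h F s Z G C val out hC hsym hbig).trans ?_
    apply Nat.mul_le_mul_left
    apply Nat.mul_le_mul_left
    exact Nat.pow_le_pow_left hlog 3
  · push Not at hbig
    have hrs : r * s ≤ m := by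
      rw [Fintype.card_sum, Fintype.card_prod, Fintype.card_prod, Fintype.card_fin,
        Fintype.card_fin, ZMod.card] at hcard
      have : r * (2 * s) = 2 * (r * s) := by ring
      omega
    calc (r - 2) ^ 3 * s ^ 2 ≤ r ^ 3 * s ^ 2 :=
          Nat.mul_le_mul_right _ (Nat.pow_le_pow_left (Nat.sub_le _ _) 3)
      _ = r * (r * s) ^ 2 := by ring
      _ ≤ r * m ^ 2 := Nat.mul_le_mul_left _ (Nat.pow_le_pow_left hrs 2)
      _ ≤ gates C := hbig.le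
      _ ≤ 4 * (gates C * (36 * (Nat.log 2 m + 1)) ^ 3) := by
        have h1 : 1 ≤ (36 * (Nat.log 2 m + 1)) ^ 3 := Nat.one_le_pow _ _ (by omega)
        calc gates C = 1 * (gates C * 1) := by ring
          _ ≤ 4 * (gates C * (36 * (Nat.log 2 m + 1)) ^ 3) :=
            Nat.mul_le_mul (by norm_num) (Nat.mul_le_mul_left _ h1)

theorem group_order {ε : ℝ} (r m : ℕ) (hm : 0 < m)
    (h1 : (r : ℝ) ≤ 2 * (m : ℝ) ^ ε) (n : ℕ) (hn : n = m ^ 2) :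
    ((128 * r ^ 5 * m ^ 2 : ℕ) : ℝ) ≤ 4096 * (n : ℝ) ^ (1 + 5 * ε / 2) := by
  have hm0 : (0 : ℝ) < m := by exact_mod_cast hm
  have h2 : (n : ℝ) ^ (1 + 5 * ε / 2) = (m : ℝ) ^ 2 * ((m : ℝ) ^ ε) ^ 5 := by
    rw [hn, Nat.cast_pow, ← Real.rpow_natCast, ← Real.rpow_natCast, ← Real.rpow_mul hm0.le,
      ← Real.rpow_mul hm0.le, ← Real.rpow_add hm0]
    congr 1
    push_cast
    ring
  rw [h2]
  push_cast
  have h3 : (r : ℝ) ^ 5 ≤ (2 * (m : ℝ) ^ ε) ^ 5 := pow_le_pow_left₀ (Nat.cast_nonneg _) h1 5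
  calc 128 * (r : ℝ) ^ 5 * (m : ℝ) ^ 2 ≤ 128 * (2 * (m : ℝ) ^ ε) ^ 5 * (m : ℝ) ^ 2 := by
        gcongr
    _ = _ := by ring

theorem asymp2 {ε δ : ℝ} (hδ : 0 < δ) : ∃ c : ℝ, 0 < c ∧ ∀ r s m N n : ℕ, 3 ≤ r → r ≤ m →
    m ≤ 4 * (r * s) → (m : ℝ) ^ ε ≤ r → n = m ^ 2 →
    (r - 2) ^ 3 * s ^ 2 ≤ 4 * (N * (36 * (Nat.log 2 m + 1)) ^ 3) →
    c * (n : ℝ) ^ (1 + ε / 2 - δ) ≤ (N : ℝ) := by
  have h2 : 0 < Real.log 2 := Real.log_pos (by norm_num)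
  set K : ℝ := (3 / (2 * δ * Real.log 2)) ^ 3 with hK
  have hKpos : 0 < K := by positivity
  refine ⟨1 / (1728 * 72 ^ 3 * K), by positivity, ?_⟩
  intro r s m N n hr hrm hms hmr hn h
  have hm3 : 3 ≤ m := hr.trans hrm
  have hm0 : (0 : ℝ) < m := by exact_mod_cast (by omega : 0 < m)
  have hl1 : 1 ≤ Nat.log 2 m := Nat.log_pos (by norm_num) (by omega)
  have h' : (((r - 2) ^ 3 * s ^ 2 : ℕ) : ℝ) ≤
      ((4 * (N * (36 * (Nat.log 2 m + 1)) ^ 3) : ℕ) : ℝ) := by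
    exact_mod_cast h
  push_cast [Nat.cast_sub (show 2 ≤ r by omega)] at h'
  have hr' : (3 : ℝ) ≤ r := by exact_mod_cast hr
  have h1 : (r : ℝ) ^ 3 ≤ 27 * ((r : ℝ) - 2) ^ 3 := by
    have : (r : ℝ) ≤ 3 * ((r : ℝ) - 2) := by linarith
    calc (r : ℝ) ^ 3 ≤ (3 * ((r : ℝ) - 2)) ^ 3 := pow_le_pow_left₀ (by linarith) this 3
      _ = 27 * ((r : ℝ) - 2) ^ 3 := by ring
  have hlog := log_bound (δ := 2 * δ) (by linarith) m
  rw [← hK] at hlog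
  have hN0 : (0 : ℝ) ≤ N := Nat.cast_nonneg _
  have hs0 : (0 : ℝ) ≤ (s : ℝ) ^ 2 := by positivity
  have hl1' : (1 : ℝ) ≤ (Nat.log 2 m : ℝ) := by exact_mod_cast hl1
  have h3 : (36 * ((Nat.log 2 m : ℝ) + 1)) ^ 3 ≤ 72 ^ 3 * (K * (m : ℝ) ^ (2 * δ)) := by
    calc (36 * ((Nat.log 2 m : ℝ) + 1)) ^ 3 ≤ (72 * (Nat.log 2 m : ℝ)) ^ 3 :=
          pow_le_pow_left₀ (by linarith) (by linarith) 3
      _ = 72 ^ 3 * (Nat.log 2 m : ℝ) ^ 3 := by ring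
      _ ≤ _ := mul_le_mul_of_nonneg_left hlog (by norm_num)
  have h4 : (r : ℝ) ^ 3 * (s : ℝ) ^ 2 ≤ 108 * 72 ^ 3 * K * (N * (m : ℝ) ^ (2 * δ)) := by
    calc (r : ℝ) ^ 3 * (s : ℝ) ^ 2 ≤ (27 * ((r : ℝ) - 2) ^ 3) * (s : ℝ) ^ 2 :=
          mul_le_mul_of_nonneg_right h1 hs0
      _ = 27 * (((r : ℝ) - 2) ^ 3 * (s : ℝ) ^ 2) := by ring
      _ ≤ 27 * (4 * (N * (36 * ((Nat.log 2 m : ℝ) + 1)) ^ 3)) := by linarith
      _ ≤ 27 * (4 * (N * (72 ^ 3 * (K * (m : ℝ) ^ (2 * δ))))) := by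
          have := mul_le_mul_of_nonneg_left h3 hN0
          linarith
      _ = _ := by ring
  have h5 : (m : ℝ) ≤ 4 * (r * s) := by exact_mod_cast hms
  have h6 : (m : ℝ) ^ 2 * (m : ℝ) ^ ε ≤ 16 * ((r : ℝ) ^ 3 * (s : ℝ) ^ 2) := by
    calc (m : ℝ) ^ 2 * (m : ℝ) ^ ε ≤ (4 * ((r : ℝ) * s)) ^ 2 * r :=
          mul_le_mul (pow_le_pow_left₀ hm0.le h5 2) hmr (by positivity) (by positivity)
      _ = _ := by ring
  have h7 : (n : ℝ) ^ (1 + ε / 2 - δ) * (m : ℝ) ^ (2 * δ) = (m : ℝ) ^ 2 * (m : ℝ) ^ ε := by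
    rw [hn, Nat.cast_pow, ← Real.rpow_natCast, ← Real.rpow_mul hm0.le, ← Real.rpow_add hm0,
      ← Real.rpow_add hm0]
    congr 1
    push_cast
    ring
  have hmd : (0 : ℝ) < (m : ℝ) ^ (2 * δ) := by positivity
  have h8 : (n : ℝ) ^ (1 + ε / 2 - δ) * (m : ℝ) ^ (2 * δ) ≤
      (1728 * 72 ^ 3 * K * N) * (m : ℝ) ^ (2 * δ) := by
    rw [h7]
    calc _ ≤ 16 * ((r : ℝ) ^ 3 * (s : ℝ) ^ 2) := h6
      _ ≤ 16 * (108 * 72 ^ 3 * K * (N * (m : ℝ) ^ (2 * δ))) := by linarith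
      _ = _ := by ring
  have h9 := le_of_mul_le_mul_right h8 hmd
  rw [div_mul_eq_mul_div, one_mul, div_le_iff₀ (by positivity)]
  linarith

end Pool.Agent.H522R3.LS
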