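import Pool.Agent.H522R3.LS.Upper

/-!
# Small codes without long chains of dependent triples
-/

namespace Pool.Agent.H522R3.LS

/-- vectors over `ZMod 2` with `κ` entries -/
abbrev Vec (κ : ℕ) : Type := Fin κ → ZMod 2

/-- the combination of the columns `a u` with the coefficients `y u` -/
def comb {r κ : ℕ} (a : Fin r → Vec κ) (y : Vec r) : Vec κ := ∑ u, y u • a u

/-- parameters of the vectors with at most three nonzero entries -/
abbrev Q3 (r : ℕ) : Type := (Fin 3 → Fin r) × (Fin 3 → ZMod 2)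

/-- the vector with the given parameters -/
def vec {r : ℕ} (q : Q3 r) : Vec r := fun u => ∑ j, if q.1 j = u then q.2 j else 0

/-- triangular families -/
def Tri {r k : ℕ} (y : Fin k → Vec r) : Prop :=
  ∃ z : Fin k → Fin r, (∀ i, y i (z i) = 1) ∧ ∀ i j, i < j → y i (z j) = 0

/-- the values of a triangular family lie in the span of few of them -/
def Bad {r κ : ℕ} (k D : ℕ) (a : Fin r → Vec κ) : Prop :=
  ∃ p : Fin k → Q3 r, Tri (fun i => vec (p i)) ∧ ∃ I : Finset (Fin k), I.card = D ∧
    ∀ j, comb a (vec (p j)) ∈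
      Submodule.span (ZMod 2) (Set.range fun i : I => comb a (vec (p i)))

section surj

variable {r k κ : ℕ}

theorem tri_surj {y : Fin k → Vec r} (hy : Tri y) :
    Function.Surjective fun a : Fin r → Vec κ => fun i => comb a (y i) := by
  obtain ⟨z, h1, h2⟩ := hy
  -- one coordinate
  let L : Vec r →ₗ[ZMod 2] Vec k :=
    { toFun := fun x i => ∑ u, y i u * x u
      map_add' := by
        intro x x'
        funext i
        simp [mul_add, Finset.sum_add_distrib]
      map_smul' := by
        intro c x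
        funext i
        simp only [Pi.smul_apply, smul_eq_mul, RingHom.id_apply, Finset.mul_sum]
        exact Finset.sum_congr rfl fun u _ => by ring }
  have hL : ∀ j i, L (Pi.single (z j) 1) i = y i (z j) := by
    intro j i
    show ∑ u, y i u * (Pi.single (z j) 1 : Vec r) u = y i (z j)
    rw [Finset.sum_eq_single (z j)]
    · simp
    · intro u _ hu
      simp [Pi.single_eq_of_ne hu]
    · simp
  have hind : LinearIndependent (ZMod 2) fun j : Fin k => L (Pi.single (z j) 1) := by
    apply linInd_of_tri _ (fun i => LinearMap.proj i) (fun i => i.val)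
    · intro i
      rw [LinearMap.proj_apply, hL, h1]
      exact one_ne_zero
    · intro i j hij hle
      rw [LinearMap.proj_apply, hL]
      exact h2 i j (lt_of_le_of_ne hle hij)
  have hspan := hind.span_eq_top_of_card_eq_finrank' (by simp)
  have hLs : Function.Surjective L := by
    rw [← LinearMap.range_eq_top, eq_top_iff, ← hspan, Submodule.span_le]
    rintro _ ⟨j, rfl⟩
    exact ⟨_, rfl⟩
  intro v
  choose x hx using fun c : Fin κ => hLs (fun i => v i c)
  refine ⟨fun u c => x c u, ?_⟩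
  funext i c
  have := congrFun (hx c) i
  simp only [comb, Finset.sum_apply, Pi.smul_apply, smul_eq_mul]
  exact this

theorem fibre_count {y : Fin k → Vec r} (hy : Tri y) (P : Finset (Fin k → Vec κ)) :
    (Finset.univ.filter fun a : Fin r → Vec κ => (fun i => comb a (y i)) ∈ P).card *
      2 ^ (κ * k) = P.card * 2 ^ (κ * r) := by
  classical
  let E : (Fin r → Vec κ) →+ (Fin k → Vec κ) :=
    { toFun := fun a i => comb a (y i)
      map_zero' := by
        funext i
        simp [comb]
      map_add' := by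
        intro a a'
        funext i
        simp [comb, Finset.sum_add_distrib] }
  have hE : Function.Surjective E := tri_surj hy
  set c := (Finset.univ.filter fun a => E a = 0).card with hc
  have hfib : ∀ b, (Finset.univ.filter fun a => E a = b).card = c := by
    intro b
    exact AddMonoidHom.card_fiber_eq_of_mem_range E (hE b) (hE 0)
  have h1 : ∀ P : Finset (Fin k → Vec κ),
      (Finset.univ.filter fun a : Fin r → Vec κ => E a ∈ P).card = P.card * c := by
    intro P
    rw [Finset.card_eq_sum_card_fiberwise (f := E) (t := P)]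
    · rw [Finset.sum_congr rfl (g := fun _ => c), Finset.sum_const, smul_eq_mul]
      intro b hb
      rw [← hfib b]
      congr 1
      ext a
      simp only [Finset.mem_filter, Finset.mem_univ, true_and]
      constructor
      · exact fun h => h.2
      · intro h
        exact ⟨h ▸ hb, h⟩
    · intro a ha
      exact (Finset.mem_filter.mp ha).2
  have h2 := h1 Finset.univ
  have h3 : (Finset.univ.filter fun a : Fin r → Vec κ => E a ∈ Finset.univ) = Finset.univ := by
    ext a; simp
  rw [h3, Finset.card_univ, Finset.card_univ] at h2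
  have h4 : Fintype.card (Fin r → Vec κ) = 2 ^ (κ * r) := by
    simp [Vec, ZMod.card, pow_mul]
  have h5 : Fintype.card (Fin k → Vec κ) = 2 ^ (κ * k) := by
    simp [Vec, ZMod.card, pow_mul]
  rw [h4, h5] at h2
  have h6 := h1 P
  show (Finset.univ.filter fun a : Fin r → Vec κ => E a ∈ P).card * _ = _
  rw [h6, h2]
  ring

end surj

section spans

variable {k κ : ℕ}

open Classical in
/-- the tuples contained in the span of the members with index in `I` -/
noncomputable def PI (κ : ℕ) (I : Finset (Fin k)) : Finset (Fin k → Vec κ) :=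
  Finset.univ.filter fun v => ∀ j, v j ∈
    Submodule.span (ZMod 2) (Set.range fun i : I => v i)

theorem card_PI (I : Finset (Fin k)) {D : ℕ} (hI : I.card = D) :
    (PI κ I).card ≤ 2 ^ (κ * D + D * (k - D)) := by
  classical
  let Ψ : (I → Vec κ) × ((Iᶜ : Finset (Fin k)) → (I → ZMod 2)) → (Fin k → Vec κ) :=
    fun w j => if h : j ∈ I then w.1 ⟨j, h⟩ else
      ∑ i, w.2 ⟨j, Finset.mem_compl.mpr h⟩ i • w.1 i
  have hsub : PI κ I ⊆ Finset.univ.image Ψ := by
    intro v hv
    simp only [PI, Finset.mem_filter, Finset.mem_univ, true_and] at hv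
    choose c hc using fun j => (Submodule.mem_span_range_iff_exists_fun (ZMod 2)).mp (hv j)
    rw [Finset.mem_image]
    refine ⟨(fun i => v i, fun j => c j), Finset.mem_univ _, ?_⟩
    funext j
    show (if h : j ∈ I then v j else ∑ i, c j i • v i) = v j
    split_ifs with h
    · rfl
    · exact hc j
  refine (Finset.card_le_card hsub).trans (Finset.card_image_le.trans (le_of_eq ?_))
  rw [Finset.card_univ, Fintype.card_prod]
  simp only [Vec, Fintype.card_fun, Fintype.card_fin, ZMod.card, Fintype.card_coe,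
    Finset.card_compl, hI]
  rw [← pow_mul, ← pow_mul, ← pow_add]

theorem exists_I (v : Fin k → Vec κ) (K : Submodule (ZMod 2) (Vec κ)) {D : ℕ}
    (hK : Module.finrank (ZMod 2) K ≤ D) (hD : D ≤ k) (hv : ∀ j, v j ∈ K) :
    ∃ I : Finset (Fin k), I.card = D ∧ ∀ j, v j ∈
      Submodule.span (ZMod 2) (Set.range fun i : I => v i) := by
  classical
  obtain ⟨ι, b, hb, hspan, hind⟩ := exists_linearIndependent' (ZMod 2) v
  have : Finite ι := Finite.of_injective b hb
  have : Fintype ι := Fintype.ofFinite ι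
  have hcard : Fintype.card ι ≤ D := by
    have h1 := finrank_span_eq_card hind
    rw [← h1]
    refine le_trans ?_ hK
    apply Submodule.finrank_mono
    rw [Submodule.span_le]
    rintro _ ⟨i, rfl⟩
    exact hv _
  have hI0 : (Finset.univ.image b).card ≤ D := Finset.card_image_le.trans hcard
  obtain ⟨I, hsub, hIc⟩ := Finset.exists_superset_card_eq hI0
    (show D ≤ Fintype.card (Fin k) by simpa using hD)
  refine ⟨I, hIc, fun j => ?_⟩
  have h1 : v j ∈ Submodule.span (ZMod 2) (Set.range v) := Submodule.subset_span ⟨j, rfl⟩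
  rw [← hspan] at h1
  refine Submodule.span_mono ?_ h1
  rintro _ ⟨i, rfl⟩
  exact ⟨⟨b i, hsub (Finset.mem_image_of_mem _ (Finset.mem_univ _))⟩, rfl⟩

end spans

open Classical in
theorem bad_count (r κ k D : ℕ) :
    (Finset.univ.filter fun a : Fin r → Vec κ => Bad k D a).card * 2 ^ (κ * k) ≤
      (16 * r ^ 3) ^ k * 2 ^ (κ * D + D * (k - D)) * 2 ^ (κ * r) := by
  let S : Finset ((Fin k → Q3 r) × Finset (Fin k)) :=
    Finset.univ.filter fun w => Tri (fun i => vec (w.1 i)) ∧ w.2.card = D
  have hsub : (Finset.univ.filter fun a : Fin r → Vec κ => Bad k D a) ⊆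
      S.biUnion fun w => Finset.univ.filter fun a : Fin r → Vec κ =>
        (fun i => comb a (vec (w.1 i))) ∈ PI κ w.2 := by
    intro a ha
    obtain ⟨p, hp, I, hI, hspan⟩ := (Finset.mem_filter.mp ha).2
    rw [Finset.mem_biUnion]
    refine ⟨(p, I), ?_, ?_⟩
    · exact Finset.mem_filter.mpr ⟨Finset.mem_univ _, hp, hI⟩
    · rw [Finset.mem_filter]
      refine ⟨Finset.mem_univ _, ?_⟩
      simp only [PI, Finset.mem_filter, Finset.mem_univ, true_and]
      exact hspan
  have h1 := (Finset.card_le_card hsub).trans Finset.card_biUnion_le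
  have h2 : (∑ w ∈ S, (Finset.univ.filter fun a : Fin r → Vec κ =>
      (fun i => comb a (vec (w.1 i))) ∈ PI κ w.2).card) * 2 ^ (κ * k) ≤
      S.card * (2 ^ (κ * D + D * (k - D)) * 2 ^ (κ * r)) := by
    rw [Finset.sum_mul, ← smul_eq_mul S.card, ← Finset.sum_const]
    apply Finset.sum_le_sum
    intro w hw
    obtain ⟨hw1, hw2⟩ := (Finset.mem_filter.mp hw).2
    rw [fibre_count hw1]
    exact Nat.mul_le_mul_right _ (card_PI w.2 hw2)
  have h3 : S.card ≤ (16 * r ^ 3) ^ k := by
    refine (Finset.card_filter_le _ _).trans (le_of_eq ?_)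
    rw [Finset.card_univ, Fintype.card_prod]
    simp only [Fintype.card_fun, Fintype.card_fin, Fintype.card_prod, ZMod.card,
      Fintype.card_finset]
    rw [← mul_pow]
    congr 1
    ring
  calc _ ≤ _ := Nat.mul_le_mul_right _ h1
    _ ≤ _ := h2
    _ ≤ (16 * r ^ 3) ^ k * (2 ^ (κ * D + D * (k - D)) * 2 ^ (κ * r)) :=
      Nat.mul_le_mul_right _ h3
    _ = _ := by ring

/-- **Existence of good codes.** -/
theorem exists_good (r D : ℕ) (hr : 1 ≤ r) (hD : 1 ≤ D) :
    ∃ κ : ℕ, 2 ^ κ ≤ 128 * r ^ 4 * 2 ^ D ∧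
      ∃ a : Fin r → Vec κ, ¬ Bad (4 * D) D a ∧ ¬ Bad 1 0 a := by
  classical
  obtain ⟨κ, hκ1, hκ2⟩ : ∃ κ : ℕ, 64 * r ^ 4 * 2 ^ D ≤ 2 ^ κ ∧
      2 ^ κ ≤ 128 * r ^ 4 * 2 ^ D := by
    set x := 64 * r ^ 4 * 2 ^ D with hx
    have hr4 : 1 ≤ r ^ 4 := Nat.one_le_pow _ _ hr
    have h2D : 1 ≤ 2 ^ D := Nat.one_le_two_pow
    have hx1 : 64 ≤ x := by
      rw [hx, mul_assoc]
      have : 1 ≤ r ^ 4 * 2 ^ D := Nat.mul_pos hr4 h2D
      omega
    refine ⟨Nat.clog 2 x, Nat.le_pow_clog (by norm_num) x, ?_⟩
    have h1 := Nat.pow_pred_clog_lt_self (b := 2) (by norm_num) (x := x) (by omega)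
    have h2 : Nat.clog 2 x = (Nat.clog 2 x).pred + 1 :=
      (Nat.succ_pred_eq_of_pos (Nat.clog_pos (by norm_num) (by omega))).symm
    rw [h2, pow_succ]
    have h3 : 128 * r ^ 4 * 2 ^ D = x * 2 := by rw [hx]; ring
    rw [h3]
    exact Nat.mul_le_mul_right _ h1.le
  refine ⟨κ, hκ2, ?_⟩
  by_contra hcon
  push Not at hcon
  set A := Finset.univ.filter fun a : Fin r → Vec κ => Bad (4 * D) D a with hA
  set B := Finset.univ.filter fun a : Fin r → Vec κ => Bad 1 0 a with hB
  have hall : (Finset.univ : Finset (Fin r → Vec κ)) ⊆ A ∪ B := by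
    intro a _
    rw [Finset.mem_union, hA, hB, Finset.mem_filter, Finset.mem_filter]
    by_cases h : Bad (4 * D) D a
    · exact Or.inl ⟨Finset.mem_univ _, h⟩
    · exact Or.inr ⟨Finset.mem_univ _, hcon a h⟩
  have hcard : 2 ^ (κ * r) ≤ A.card + B.card := by
    have h1 := (Finset.card_le_card hall).trans (Finset.card_union_le _ _)
    rw [Finset.card_univ] at h1
    have h4 : Fintype.card (Fin r → Vec κ) = 2 ^ (κ * r) := by
      simp [Vec, ZMod.card, pow_mul]
    rwa [h4] at h1
  set T := 2 ^ (κ * r) with hT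
  have hTpos : 0 < T := by positivity
  have hr3 : 0 < r ^ 3 := by positivity
  -- the second kind
  have hBc : 4 * B.card ≤ T := by
    have h := bad_count r κ 1 0
    rw [← hB, ← hT] at h
    simp only [mul_one, pow_one, Nat.mul_zero, Nat.zero_mul, add_zero, pow_zero] at h
    -- `B.card * 2 ^ κ ≤ 16 r ^ 3 T`
    have h1 : B.card * (64 * r ^ 4 * 2 ^ D) ≤ 16 * r ^ 3 * T :=
      (Nat.mul_le_mul_left _ hκ1).trans h
    have h2 : 4 * B.card * (16 * r ^ 3) ≤ T * (16 * r ^ 3) := by
      calc 4 * B.card * (16 * r ^ 3) = B.card * (64 * r ^ 3) := by ring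
        _ ≤ B.card * (64 * r ^ 4 * 2 ^ D) := by
          apply Nat.mul_le_mul_left
          calc 64 * r ^ 3 = 64 * r ^ 3 * 1 := by ring
            _ ≤ 64 * r ^ 3 * (r * 2 ^ D) :=
              Nat.mul_le_mul_left _ (Nat.mul_pos hr (by positivity))
            _ = _ := by ring
        _ ≤ _ := h1
        _ = _ := by ring
    exact Nat.le_of_mul_le_mul_right h2 (by positivity)
  -- the first kind
  have hAc : 4 * A.card ≤ T := by
    have h := bad_count r κ (4 * D) D
    rw [← hA, ← hT] at h
    have hsub : 4 * D - D = 3 * D := by omega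
    rw [hsub] at h
    have e1 : 2 ^ (κ * (4 * D)) = 2 ^ (κ * D) * (2 ^ κ) ^ (3 * D) := by
      rw [← pow_mul, ← pow_add]
      congr 1
      ring
    rw [e1] at h
    have h1 : A.card * (2 ^ κ) ^ (3 * D) ≤ (16 * r ^ 3) ^ (4 * D) * 2 ^ (D * (3 * D)) * T := by
      have h2 : 2 ^ (κ * D) * (A.card * (2 ^ κ) ^ (3 * D)) ≤
          2 ^ (κ * D) * ((16 * r ^ 3) ^ (4 * D) * 2 ^ (D * (3 * D)) * T) := by
        calc _ = A.card * (2 ^ (κ * D) * (2 ^ κ) ^ (3 * D)) := by ring
          _ ≤ _ := h
          _ = _ := by rw [pow_add]; ring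
      exact Nat.le_of_mul_le_mul_left h2 (by positivity)
    have h3 : A.card * (64 * r ^ 4 * 2 ^ D) ^ (3 * D) ≤
        (16 * r ^ 3) ^ (4 * D) * 2 ^ (D * (3 * D)) * T :=
      (Nat.mul_le_mul_left _ (Nat.pow_le_pow_left hκ1 _)).trans h1
    have e2 : (64 * r ^ 4 * 2 ^ D) ^ (3 * D) =
        4 ^ D * ((16 * r ^ 3) ^ (4 * D) * 2 ^ (D * (3 * D))) := by
      have e3 : (64 * r ^ 4 * 2 ^ D) ^ (3 * D) =
          ((64 * r ^ 4) ^ 3) ^ D * 2 ^ (D * (3 * D)) := by
        rw [mul_pow, pow_mul (64 * r ^ 4), ← pow_mul 2]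
      have e4 : (64 * r ^ 4) ^ 3 = 4 * (16 * r ^ 3) ^ 4 := by ring
      rw [e3, e4, mul_pow 4, ← pow_mul (16 * r ^ 3)]
      ring
    rw [e2] at h3
    set X := (16 * r ^ 3) ^ (4 * D) * 2 ^ (D * (3 * D)) with hX
    have hXpos : 0 < X := by positivity
    have h4 : A.card * 4 ^ D * X ≤ T * X := by
      calc _ = A.card * (4 ^ D * X) := by ring
        _ ≤ X * T := h3
        _ = _ := by ring
    have h5 := Nat.le_of_mul_le_mul_right h4 hXpos
    refine le_trans ?_ h5
    rw [mul_comm]
    apply Nat.mul_le_mul_left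
    calc 4 = 4 ^ 1 := by norm_num
      _ ≤ 4 ^ D := Nat.pow_le_pow_right (by norm_num) hD
  omega

end Pool.Agent.H522R3.LS
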