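import Pool.Agent.H522R3.LS.Count

/-!
# Symmetric circuits from arbitrary circuits for the blocks, and the asymptotic form
-/

namespace Pool.Agent.H522R3.LS

open MvPolynomial

/-- `C` computes the product of two generic matrices indexed by `M × M`; `out p q` is the node
of the entry `(p, q)`, and `val` gives the polynomials computed at the nodes. -/
def Computes {M F G : Type} [Fintype M] [Field F] (C : Circ ((M × M) ⊕ (M × M)) F G)
    (val : G → MvPolynomial ((M × M) ⊕ (M × M)) F) (out : M → M → G) : Prop :=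
  IsVal C val ∧ ∀ p q, val (out p q) = prodEntry F p q

/-- `C` is symmetric under the permutation `f` of the index set: `f` extends to an
automorphism, which maps the output `(p, q)` to the output `(f p, f q)`. -/
def Symm {M F G : Type} (C : Circ ((M × M) ⊕ (M × M)) F G) (out : M → M → G)
    (f : M → M) : Prop :=
  ∃ π : Equiv.Perm G, IsAut C (both f) π ∧ ∀ p q, π (out p q) = out (f p) (f q)

/-- The permutation of the index set given by a permutation of the `2 r` blocks. -/
def bl {r s : ℕ} {Z : Type} (σ : Equiv.Perm (Fin r × ZMod 2)) : Ix r s Z → Ix r s Z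
  | .inl (v, a, i) => .inl ((σ (v, a)).1, (σ (v, a)).2, i)
  | .inr z => .inr z

section upper

variable {r s : ℕ} {F G : Type} [Field F] [Fintype G]

/-- the blocks -/
abbrev Bk (r : ℕ) : Type := Fin r × ZMod 2

def mk (b : Bk r) (i : Fin s) : Ix r s Empty := .inl (b.1, b.2, i)

def blk : Ix r s Empty → Bk r
  | .inl (v, a, _) => (v, a)

def loc : Ix r s Empty → Fin s
  | .inl (_, _, i) => i

theorem mk_blk (p : Ix r s Empty) : mk (blk p) (loc p) = p := by
  rcases p with ⟨v, a, i⟩ | z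
  · rfl
  · exact z.elim

/-- the index set as blocks times positions -/
def ixE : Ix r s Empty ≃ Bk r × Fin s where
  toFun p := (blk p, loc p)
  invFun x := mk x.1 x.2
  left_inv := mk_blk
  right_inv _ := rfl

def emb (β : Bk r × Bk r × Bk r) : V2 s → Vr r s Empty
  | .inl (i, k) => .inl (mk β.1 i, mk β.2.1 k)
  | .inr (k, j) => .inr (mk β.2.1 k, mk β.2.2 j)

/-- the nodes of the block circuit -/
abbrev Nd (r s : ℕ) (G : Type) : Type :=
  ((Bk r × Bk r × Bk r) × G) ⊕ (Ix r s Empty × Ix r s Empty)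

/-- the block circuit -/
def blockC (C : Circ (V2 s) F G) (out : Fin s → Fin s → G) :
    Circ (Vr r s Empty) F (Nd r s G) where
  lab := fun x => match x with
    | .inl (β, g) => (C.lab g).relabel (emb β)
    | .inr _ => .add
  args := fun x => match x with
    | .inl (β, g) => (C.args g).map fun h => Sum.inl (β, h)
    | .inr (p, q) => (Finset.univ : Finset (Bk r)).val.map fun b =>
        Sum.inl ((blk p, b, blk q), out (loc p) (loc q))
  num := fun x => match x with
    | .inl (_, g) => C.num g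
    | .inr _ => Finset.univ.sup C.num + 1
  num_lt := by
    rintro (⟨β, g⟩ | ⟨p, q⟩) h hh
    · simp only [Multiset.mem_map] at hh
      obtain ⟨h', hh', rfl⟩ := hh
      exact C.num_lt g h' hh'
    · simp only [Multiset.mem_map] at hh
      obtain ⟨b, _, rfl⟩ := hh
      exact Nat.lt_succ_of_le (Finset.le_sup (f := C.num) (Finset.mem_univ _))

/-- the values of the block circuit -/
noncomputable def blockV (val : G → MvPolynomial (V2 s) F) :
    Nd r s G → MvPolynomial (Vr r s Empty) F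
  | .inl (β, g) => rename (emb β) (val g)
  | .inr (p, q) => prodEntry F p q

theorem blockC_val {C : Circ (V2 s) F G} {val : G → MvPolynomial (V2 s) F}
    {out : Fin s → Fin s → G} (h : Computes C val out) :
    IsVal (blockC (r := r) C out) (blockV val) := by
  rintro (⟨β, g⟩ | ⟨p, q⟩)
  · show rename (emb β) (val g) = _
    rw [h.1 g]
    simp only [blockC]
    cases C.lab g with
    | var i => simp [Lab.relabel]
    | const c => simp [Lab.relabel]
    | add =>
      simp only [Lab.relabel]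
      rw [map_multiset_sum, Multiset.map_map, Multiset.map_map]
      rfl
    | mul =>
      simp only [Lab.relabel]
      rw [map_multiset_prod, Multiset.map_map, Multiset.map_map]
      rfl
  · show prodEntry F p q = _
    simp only [blockC]
    rw [Multiset.map_map]
    show prodEntry F p q = ∑ b : Bk r, rename (emb (blk p, b, blk q)) (val (out (loc p) (loc q)))
    unfold prodEntry
    rw [← Equiv.sum_comp (ixE (r := r) (s := s)).symm, Fintype.sum_prod_type]
    apply Finset.sum_congr rfl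
    intro b _
    rw [h.2]
    unfold prodEntry
    rw [map_sum]
    apply Finset.sum_congr rfl
    intro k _
    rw [map_mul, rename_X, rename_X]
    simp only [emb, mk_blk]
    rfl

omit [Field F] in
theorem gates_blockC (C : Circ (V2 s) F G) (out : Fin s → Fin s → G) :
    gates (blockC (r := r) C out) = (2 * r) ^ 3 * gates C + (2 * r * s) ^ 2 := by
  classical
  unfold gates
  have hset : (Finset.univ.filter fun g : Nd r s G =>
      (blockC (r := r) C out).lab g = .add ∨ (blockC (r := r) C out).lab g = .mul) =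
      (Finset.univ ×ˢ (Finset.univ.filter fun g => C.lab g = .add ∨ C.lab g = .mul)).disjSum
        Finset.univ := by
    ext x
    rcases x with ⟨β, g⟩ | ⟨p, q⟩
    · simp only [blockC, Finset.mem_filter, Finset.mem_univ, true_and, Finset.inl_mem_disjSum,
        Finset.mem_product]
      cases C.lab g <;> simp [Lab.relabel]
    · simp [blockC]
  rw [hset, Finset.card_disjSum, Finset.card_product]
  simp only [Finset.card_univ, Fintype.card_prod, Fintype.card_sum, Fintype.card_fin, ZMod.card,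
    Fintype.card_empty]
  ring

/-- the automorphism of the block circuit -/
def blP (σ : Equiv.Perm (Bk r)) : Equiv.Perm (Ix r s Empty) where
  toFun := bl σ
  invFun := bl σ.symm
  left_inv := by
    rintro (⟨v, a, i⟩ | z)
    · simp [bl]
    · exact z.elim
  right_inv := by
    rintro (⟨v, a, i⟩ | z)
    · simp [bl]
    · exact z.elim

def blockP (G : Type) (σ : Equiv.Perm (Bk r)) : Equiv.Perm (Nd r s G) :=
  Equiv.sumCongr (Equiv.prodCongr (Equiv.prodCongr σ (Equiv.prodCongr σ σ)) (Equiv.refl G))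
    (Equiv.prodCongr (blP σ) (blP σ))

theorem bl_mk (σ : Equiv.Perm (Bk r)) (b : Bk r) (i : Fin s) :
    bl σ (mk b i) = mk (σ b) i := rfl

theorem blk_bl (σ : Equiv.Perm (Bk r)) (p : Ix r s Empty) : blk (bl σ p) = σ (blk p) := by
  rcases p with ⟨v, a, i⟩ | z
  · rfl
  · exact z.elim

theorem loc_bl (σ : Equiv.Perm (Bk r)) (p : Ix r s Empty) : loc (bl σ p) = loc p := by
  rcases p with ⟨v, a, i⟩ | z
  · rfl
  · exact z.elim

omit [Field F] in
theorem blockC_symm (C : Circ (V2 s) F G) (out : Fin s → Fin s → G)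
    (σ : Equiv.Perm (Bk r)) :
    Symm (blockC (r := r) C out) (fun p q => Sum.inr (p, q)) (bl σ) := by
  refine ⟨blockP G σ, ?_, fun p q => rfl⟩
  rintro (⟨⟨b1, b2, b3⟩, g⟩ | ⟨p, q⟩)
  · constructor
    · show (C.lab g).relabel (emb (σ b1, σ b2, σ b3)) =
        ((C.lab g).relabel (emb (b1, b2, b3))).relabel (both (bl σ))
      cases C.lab g with
      | var i =>
        rcases i with ⟨i, k⟩ | ⟨k, j⟩ <;> rfl
      | const c => rfl
      | add => rfl
      | mul => rfl
    · show ((C.args g).map fun h => Sum.inl ((σ b1, σ b2, σ b3), h)) =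
        ((C.args g).map fun h => Sum.inl ((b1, b2, b3), h)).map (blockP G σ)
      rw [Multiset.map_map]
      rfl
  · constructor
    · rfl
    · show ((Finset.univ : Finset (Bk r)).val.map fun b =>
          Sum.inl ((blk (bl σ p), b, blk (bl σ q)), out (loc (bl σ p)) (loc (bl σ q)))) =
        ((Finset.univ : Finset (Bk r)).val.map fun b =>
          Sum.inl ((blk p, b, blk q), out (loc p) (loc q))).map (blockP G σ)
      rw [Multiset.map_map, blk_bl, blk_bl, loc_bl, loc_bl]
      have h1 : (Finset.univ : Finset (Bk r)).val.map σ = (Finset.univ : Finset (Bk r)).val := by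
        have h2 := congrArg Finset.val (Finset.map_univ_equiv σ)
        rwa [Finset.map_val] at h2
      conv_lhs => rw [← h1]
      rw [Multiset.map_map]
      rfl

end upper

/-- The exchanges are block permutations. -/
theorem sw_eq_bl {r s : ℕ} {Z : Type} (x : Fin r → ZMod 2) :
    ∃ σ : Equiv.Perm (Fin r × ZMod 2), (sw x : Ix r s Z → Ix r s Z) = bl σ := by
  refine ⟨⟨fun b => (b.1, b.2 + x b.1), fun b => (b.1, b.2 + x b.1), ?_, ?_⟩, ?_⟩
  · rintro ⟨v, a⟩
    simp only [Prod.mk.injEq, true_and]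
    rw [add_assoc, CharTwo.add_self_eq_zero, add_zero]
  · rintro ⟨v, a⟩
    simp only [Prod.mk.injEq, true_and]
    rw [add_assoc, CharTwo.add_self_eq_zero, add_zero]
  · funext p
    rcases p with ⟨v, a, i⟩ | z <;> rfl

/-! ### The asymptotic form -/

theorem log_bound {δ : ℝ} (hδ : 0 < δ) (N : ℕ) :
    (Nat.log 2 N : ℝ) ^ 3 ≤ (3 / (δ * Real.log 2)) ^ 3 * (N : ℝ) ^ δ := by
  have h2 : 0 < Real.log 2 := Real.log_pos (by norm_num)
  have h1 : (Nat.log 2 N : ℝ) ≤ Real.log N / Real.log 2 := by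
    have := Real.natLog_le_logb N 2
    rwa [Real.logb, Nat.cast_ofNat] at this
  have h3 : Real.log N ≤ (N : ℝ) ^ (δ / 3) / (δ / 3) :=
    Real.log_le_rpow_div (Nat.cast_nonneg _) (by positivity)
  have h4 : (Nat.log 2 N : ℝ) ≤ 3 / (δ * Real.log 2) * (N : ℝ) ^ (δ / 3) := by
    calc (Nat.log 2 N : ℝ) ≤ Real.log N / Real.log 2 := h1
      _ ≤ ((N : ℝ) ^ (δ / 3) / (δ / 3)) / Real.log 2 :=
        div_le_div_of_nonneg_right h3 h2.le
      _ = 3 / (δ * Real.log 2) * (N : ℝ) ^ (δ / 3) := by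
        field_simp
  calc (Nat.log 2 N : ℝ) ^ 3 ≤ (3 / (δ * Real.log 2) * (N : ℝ) ^ (δ / 3)) ^ 3 :=
        pow_le_pow_left₀ (Nat.cast_nonneg _) h4 3
    _ = (3 / (δ * Real.log 2)) ^ 3 * (N : ℝ) ^ δ := by
      rw [mul_pow]
      congr 1
      rw [← Real.rpow_natCast, ← Real.rpow_mul (Nat.cast_nonneg _)]
      congr 1
      push_cast
      ring

theorem asymp {ε δ : ℝ} (hδ : 0 < δ) : ∃ c : ℝ, 0 < c ∧ ∀ r s z N : ℕ, 3 ≤ r →
    z ≤ 2 * (r * s) → ((2 * (r * s) + z : ℕ) : ℝ) ^ ε ≤ r → 0 < 2 * (r * s) + z →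
    (r - 2) ^ 3 * s ^ 2 ≤ 4 * (N * (3 * Nat.log 2 N) ^ 3) →
    c * (((2 * (r * s) + z) ^ 2 : ℕ) : ℝ) ^ (1 + ε / 2) ≤ (N : ℝ) ^ (1 + δ) := by
  have h2 : 0 < Real.log 2 := Real.log_pos (by norm_num)
  set K : ℝ := (3 / (δ * Real.log 2)) ^ 3 with hK
  have hKpos : 0 < K := by positivity
  refine ⟨1 / (16 * 27 * 108 * K), by positivity, ?_⟩
  intro r s z N hr hz hm hpos h
  have h' : (((r - 2) ^ 3 * s ^ 2 : ℕ) : ℝ) ≤ ((4 * (N * (3 * Nat.log 2 N) ^ 3) : ℕ) : ℝ) := by
    exact_mod_cast h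
  push_cast [Nat.cast_sub (show 2 ≤ r by omega)] at h'
  have hr' : (3 : ℝ) ≤ r := by exact_mod_cast hr
  have h1 : (r : ℝ) ^ 3 ≤ 27 * ((r : ℝ) - 2) ^ 3 := by
    have : (r : ℝ) ≤ 3 * ((r : ℝ) - 2) := by linarith
    calc (r : ℝ) ^ 3 ≤ (3 * ((r : ℝ) - 2)) ^ 3 := pow_le_pow_left₀ (by linarith) this 3
      _ = 27 * ((r : ℝ) - 2) ^ 3 := by ring
  have hlog := log_bound hδ N
  have hN0 : (0 : ℝ) ≤ N := Nat.cast_nonneg _
  have hs0 : (0 : ℝ) ≤ (s : ℝ) ^ 2 := by positivity
  have h3 : (r : ℝ) ^ 3 * (s : ℝ) ^ 2 ≤ 27 * 108 * K * (N : ℝ) ^ (1 + δ) := by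
    have hNN : (N : ℝ) ^ (1 + δ) = N * (N : ℝ) ^ δ := by
      rcases Nat.eq_zero_or_pos N with h0 | h0
      · rw [h0, Nat.cast_zero, Real.zero_rpow (by linarith), zero_mul]
      · rw [Real.rpow_add (by exact_mod_cast h0), Real.rpow_one]
    calc (r : ℝ) ^ 3 * (s : ℝ) ^ 2 ≤ (27 * ((r : ℝ) - 2) ^ 3) * (s : ℝ) ^ 2 :=
          mul_le_mul_of_nonneg_right h1 hs0
      _ = 27 * (((r : ℝ) - 2) ^ 3 * (s : ℝ) ^ 2) := by ring
      _ ≤ 27 * (4 * (N * (3 * (Nat.log 2 N : ℝ)) ^ 3)) := by linarith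
      _ = 27 * 108 * (N * (Nat.log 2 N : ℝ) ^ 3) := by ring
      _ ≤ 27 * 108 * (N * (K * (N : ℝ) ^ δ)) := by
          have := mul_le_mul_of_nonneg_left hlog hN0
          linarith
      _ = 27 * 108 * K * (N : ℝ) ^ (1 + δ) := by rw [hNN]; ring
  have hm0 : (0 : ℝ) < ((2 * (r * s) + z : ℕ) : ℝ) := by exact_mod_cast hpos
  have h4 : (((2 * (r * s) + z) ^ 2 : ℕ) : ℝ) ^ (1 + ε / 2) =
      ((2 * (r * s) + z : ℕ) : ℝ) ^ 2 * ((2 * (r * s) + z : ℕ) : ℝ) ^ ε := by
    rw [Nat.cast_pow, ← Real.rpow_natCast, ← Real.rpow_mul hm0.le, ← Real.rpow_add hm0]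
    congr 1
    push_cast
    ring
  have h5 : ((2 * (r * s) + z : ℕ) : ℝ) ≤ 4 * (r * s) := by
    have : 2 * (r * s) + z ≤ 4 * (r * s) := by omega
    exact_mod_cast this
  have h6 : (((2 * (r * s) + z) ^ 2 : ℕ) : ℝ) ^ (1 + ε / 2) ≤ 16 * ((r : ℝ) ^ 3 * (s : ℝ) ^ 2) := by
    rw [h4]
    calc _ ≤ (4 * ((r : ℝ) * s)) ^ 2 * r := by
          apply mul_le_mul (pow_le_pow_left₀ hm0.le h5 2) hm (by positivity) (by positivity)
      _ = _ := by ring
  rw [div_mul_eq_mul_div, one_mul, div_le_iff₀ (by positivity)]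
  calc _ ≤ 16 * ((r : ℝ) ^ 3 * (s : ℝ) ^ 2) := h6
    _ ≤ 16 * (27 * 108 * K * (N : ℝ) ^ (1 + δ)) := by linarith
    _ = _ := by ring

end Pool.Agent.H522R3.LS
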